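import Mathlib

set_option autoImplicit false
set_option linter.unusedSectionVars false
set_option linter.deprecated false
open SimpleGraph

namespace Pool.Agent.U892.Theta

variable {V : Type*} [DecidableEq V] {G : SimpleGraph V}

/-- A *path system* in `G`: for every pair of vertices exactly one path with these end vertices
(`path v u` is `path u v` walked backwards). -/
structure PathSystem (G : SimpleGraph V) where
  /-- the chosen path between `u` and `v` -/
  path : ∀ u v : V, G.Walk u v
  isPath : ∀ u v, (path u v).IsPath
  symm : ∀ u v, path v u = (path u v).reverse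

/-- A path system is *consistent* if for all `x, y` on the path `P u v` (`y` after `x`) the part of
`P u v` between `x` and `y` is `P x y`. -/
def PathSystem.Consistent (P : PathSystem G) : Prop :=
  ∀ (u v x y : V) (hx : x ∈ (P.path u v).support)
    (hy : y ∈ ((P.path u v).dropUntil x hx).support),
    ((P.path u v).dropUntil x hx).takeUntil y hy = P.path x y

/-- The weight of a walk: the sum of the weights of its edges. -/
def weight (w : Sym2 V → ℝ) {u v : V} (p : G.Walk u v) : ℝ := (p.edges.map w).sum

/-- The weights `w` *induce* the path system `P`. -/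
def PathSystem.InducedBy (P : PathSystem G) (w : Sym2 V → ℝ) : Prop :=
  ∀ (u v : V) (q : G.Walk u v), q.IsPath → weight w (P.path u v) ≤ weight w q

/-- A graph is *metrizable* if every consistent path system is induced by positive weights. -/
def Metrizable (G : SimpleGraph V) : Prop :=
  ∀ P : PathSystem G, P.Consistent →
    ∃ w : Sym2 V → ℝ, (∀ e ∈ G.edgeSet, 0 < w e) ∧ P.InducedBy w

namespace PathSystem

variable (P : PathSystem G)

/-- `x` lies on the path between `u` and `v`. -/
def Mem (x u v : V) : Prop := x ∈ (P.path u v).support

/-- the length of the path between `u` and `v` -/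
def len (u v : V) : ℕ := (P.path u v).length

/-- the path between `u` and `v` is a single edge -/
def Edge (u v : V) : Prop := ∃ h : G.Adj u v, P.path u v = h.toWalk

lemma mem_comm {x u v : V} : P.Mem x u v ↔ P.Mem x v u := by
  unfold Mem
  rw [P.symm v u, Walk.support_reverse, List.mem_reverse]

lemma len_comm (u v : V) : P.len u v = P.len v u := by
  unfold len
  rw [P.symm v u, Walk.length_reverse]

lemma mem_left (u v : V) : P.Mem u u v := Walk.start_mem_support _
lemma mem_right (u v : V) : P.Mem v u v := Walk.end_mem_support _

lemma len_eq_zero {u v : V} (h : P.len u v = 0) : u = v := Walk.eq_of_length_eq_zero h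

lemma edge_comm {u v : V} (h : P.Edge u v) : P.Edge v u := by
  obtain ⟨h, e⟩ := h
  refine ⟨h.symm, ?_⟩
  rw [P.symm u v, e]
  rfl

variable {P}

lemma takeUntil_end {u v : V} {p : G.Walk u v} (hp : p.IsPath) (h : v ∈ p.support) :
    p.takeUntil v h = p := by
  have h1 : (p.dropUntil v h).IsPath := hp.dropUntil h
  have h2 : p.dropUntil v h = Walk.nil := Walk.isPath_iff_eq_nil.1 h1
  have h3 := p.take_spec h
  rw [h2, Walk.append_nil] at h3
  exact h3

lemma drop_eq (hP : P.Consistent) {u v x : V} (hx : x ∈ (P.path u v).support) :
    (P.path u v).dropUntil x hx = P.path x v := by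
  rw [← hP u v x v hx (Walk.end_mem_support _)]
  exact (takeUntil_end ((P.isPath u v).dropUntil hx) _).symm

lemma take_eq (hP : P.Consistent) {u v x : V} (hx : x ∈ (P.path u v).support) :
    (P.path u v).takeUntil x hx = P.path u x := by
  have h0 : u ∈ (P.path u v).support := Walk.start_mem_support _
  have h1 : (P.path u v).dropUntil u h0 = P.path u v := Walk.dropUntil_first _ _
  have hx' : x ∈ ((P.path u v).dropUntil u h0).support := by rw [h1]; exact hx
  rw [← hP u v u x h0 hx']
  congr 1
  exact h1.symm

lemma split (hP : P.Consistent) {u v x : V} (hx : P.Mem x u v) :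
    P.path u v = (P.path u x).append (P.path x v) := by
  have h := (P.path u v).take_spec hx
  rw [take_eq hP hx, drop_eq hP hx] at h
  exact h.symm

lemma len_add (hP : P.Consistent) {u v x : V} (hx : P.Mem x u v) :
    P.len u v = P.len u x + P.len x v := by
  unfold len
  rw [split hP hx, Walk.length_append]

lemma mem_split (hP : P.Consistent) {u v x y : V} (hx : P.Mem x u v) :
    P.Mem y u v ↔ P.Mem y u x ∨ P.Mem y x v := by
  unfold Mem
  rw [split hP hx, Walk.mem_support_append_iff]

/-- `x` on `P u v` and `y` on `P x v` imply `x` on `P u y`. -/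
lemma mem_trans (hP : P.Consistent) {u v x y : V} (hx : P.Mem x u v) (hy : P.Mem y x v) :
    P.Mem y u v ∧ P.Mem x u y := by
  have h1 : P.Mem y u v := (mem_split hP hx).2 (Or.inr hy)
  refine ⟨h1, ?_⟩
  rcases (mem_split hP h1).1 hx with h | h
  · exact h
  · have e1 := len_add hP h
    have e2 := len_add hP hy
    have e3 := P.len_comm x y
    have : x = y := P.len_eq_zero (by omega)
    rw [this]; exact P.mem_right _ _

/-- mirror image of `mem_trans` -/
lemma mem_trans' (hP : P.Consistent) {u v x y : V} (hx : P.Mem x u v) (hy : P.Mem y u x) :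
    P.Mem y u v ∧ P.Mem x y v := by
  have := mem_trans hP (P.mem_comm.1 hx) (P.mem_comm.1 hy)
  exact ⟨P.mem_comm.1 this.1, P.mem_comm.1 this.2⟩

/-- no going back -/
lemma not_back (hP : P.Consistent) {u v x : V} (hx : P.Mem x u v) (hu : P.Mem u x v) : x = u := by
  have e1 := len_add hP hx
  have e2 := len_add hP hu
  have e3 := P.len_comm x u
  exact P.len_eq_zero (by omega)

lemma mem_edge {u v x : V} (h : P.Edge u v) : P.Mem x u v ↔ x = u ∨ x = v := by
  obtain ⟨h, e⟩ := h
  unfold Mem
  rw [e]
  simp

/-- the first step of the path from `u` to `v` -/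
lemma first_step (hP : P.Consistent) {u v : V} (h : u ≠ v) :
    ∃ y, G.Adj u y ∧ P.Mem y u v ∧ P.Edge u y := by
  have key : ∀ (q : G.Walk u v), P.path u v = q → q.IsPath →
      ∃ y, G.Adj u y ∧ P.Mem y u v ∧ P.Edge u y := by
    intro q hq hqp
    cases q with
    | nil => exact absurd rfl h
    | @cons _ y _ hadj q' =>
      have hy : y ∈ (P.path u v).support := by
        rw [hq]; simp
      refine ⟨y, hadj, hy, hadj, ?_⟩
      rw [← take_eq hP hy]
      have hne : u ≠ y := hadj.ne
      have : ∀ (r : G.Walk u v) (hr : r = Walk.cons hadj q') (hy' : y ∈ r.support),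
          r.takeUntil y hy' = hadj.toWalk := by
        intro r hr hy'
        subst hr
        rw [Walk.takeUntil_cons (Walk.start_mem_support _) hne]
        rw [Walk.takeUntil_first]
        
      exact this _ hq hy
  exact key _ rfl (P.isPath u v)

end PathSystem

section weights

variable (P : PathSystem G) (w : Sym2 V → ℝ)

lemma weight_nonneg_of {u v : V} (p : G.Walk u v) (hw : ∀ e ∈ G.edgeSet, 0 < w e) :
    0 ≤ weight w p := by
  unfold weight
  apply List.sum_nonneg
  intro x hx
  obtain ⟨e, he, rfl⟩ := List.mem_map.1 hx
  exact (hw e (p.edges_subset_edgeSet he)).le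

lemma weight_append {u v x : V} (p : G.Walk u v) (q : G.Walk v x) :
    weight w (p.append q) = weight w p + weight w q := by
  unfold weight
  rw [Walk.edges_append, List.map_append, List.sum_append]

lemma weight_reverse {u v : V} (p : G.Walk u v) : weight w p.reverse = weight w p := by
  unfold weight
  rw [Walk.edges_reverse, List.map_reverse, List.sum_reverse]

/-- weight of the path between `u` and `v` -/
noncomputable def PathSystem.W (u v : V) : ℝ := weight w (P.path u v)

variable {P w}

lemma W_comm (u v : V) : P.W w u v = P.W w v u := by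
  unfold PathSystem.W
  rw [P.symm v u, weight_reverse]

lemma W_add (hP : P.Consistent) {u v x : V} (hx : P.Mem x u v) :
    P.W w u v = P.W w u x + P.W w x v := by
  unfold PathSystem.W
  rw [PathSystem.split hP hx, weight_append]

lemma W_edge {u v : V} (h : P.Edge u v) : P.W w u v = w s(u, v) := by
  obtain ⟨h, e⟩ := h
  unfold PathSystem.W
  rw [e]
  simp [weight]

lemma W_self (u : V) : P.W w u u = 0 := by
  unfold PathSystem.W
  have : P.path u u = Walk.nil := Walk.isPath_iff_eq_nil.1 (P.isPath u u)
  rw [this]
  simp [weight]

/-- It suffices to compare along edges. -/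
lemma inducedBy_of_lipschitz
    (h : ∀ u v v', G.Adj v v' → P.W w u v' ≤ P.W w u v + w s(v, v')) : P.InducedBy w := by
  have key : ∀ (u v : V) (q : G.Walk u v) (x : V), P.W w x v ≤ P.W w x u + weight w q := by
    intro u v q
    induction q with
    | nil => intro x; simp [weight]
    | @cons a b c hab q' ih =>
      intro x
      have h1 := ih x
      have h2 := h x a b hab
      have h3 : weight w (Walk.cons hab q') = w s(a, b) + weight w q' := by
        simp [weight]
      rw [h3]; linarith
  intro u v q _
  have := key u v q u
  rw [W_self] at this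
  simpa [PathSystem.W] using this

end weights

end Pool.Agent.U892.Theta
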