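import Pool.Agent.U892.Theta.Basic

set_option autoImplicit false
set_option linter.unusedSectionVars false
set_option linter.deprecated false
open SimpleGraph

namespace Pool.Agent.U892.Theta

/-- The vertices of a theta graph whose three branches have `len 0`, `len 1`, `len 2` edges: the two
branch vertices `s`, `t` and the inner vertices `mid k i`, `0 < i < len k`, of the three branches. -/
inductive Vertex (len : Fin 3 → ℕ) : Type
  | s : Vertex len
  | t : Vertex len
  | mid (k : Fin 3) (i : ℕ) (h : 0 < i ∧ i < len k) : Vertex len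
  deriving DecidableEq

variable {len : Fin 3 → ℕ}

/-- The `i`-th vertex of branch `k` (`0 ≤ i ≤ len k`); the `0`-th is `s` and the last one is `t`. -/
def node (len : Fin 3 → ℕ) (k : Fin 3) (i : ℕ) : Vertex len :=
  if h0 : i = 0 then Vertex.s
  else if h1 : i < len k then Vertex.mid k i ⟨Nat.pos_of_ne_zero h0, h1⟩
  else Vertex.t

lemma node_zero (k : Fin 3) : node len k 0 = Vertex.s := by simp [node]

lemma node_len {k : Fin 3} (h : 0 < len k) : node len k (len k) = Vertex.t := by
  simp [node, h.ne']

lemma node_mid {k : Fin 3} {i : ℕ} (h0 : 0 < i) (h1 : i < len k) :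
    node len k i = Vertex.mid k i ⟨h0, h1⟩ := by
  simp [node, h0.ne', h1]

lemma node_ne_s {k : Fin 3} {i : ℕ} (h0 : 0 < i) : node len k i ≠ Vertex.s := by
  unfold node
  split_ifs <;> simp_all

lemma node_ne_t {k : Fin 3} {i : ℕ} (h0 : i < len k) : node len k i ≠ Vertex.t := by
  unfold node
  split_ifs <;> simp_all

lemma node_inj {k l : Fin 3} {i j : ℕ} (h0 : 0 < i) (h1 : i < len k)
    (h : node len k i = node len l j) : k = l ∧ i = j := by
  rw [node_mid h0 h1] at h
  unfold node at h
  split_ifs at h with h2 h3
  injection h with h4 h5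
  exact ⟨h4, h5⟩

lemma node_succ_ne {k : Fin 3} {i : ℕ} (h : i < len k) : node len k i ≠ node len k (i + 1) := by
  intro e
  rcases Nat.eq_zero_or_pos i with h0 | h0
  · subst h0
    rw [node_zero] at e
    exact node_ne_s (Nat.succ_pos 0) e.symm
  · have := (node_inj h0 h e).2
    omega

/-- The theta graph with branches of `len 0`, `len 1`, `len 2` edges: consecutive vertices of each
branch are adjacent. -/
def thetaGraph (len : Fin 3 → ℕ) : SimpleGraph (Vertex len) where
  Adj u v := ∃ k i, i < len k ∧
    ((u = node len k i ∧ v = node len k (i + 1)) ∨ (v = node len k i ∧ u = node len k (i + 1)))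
  symm := ⟨by
    rintro u v ⟨k, i, h, h1 | h1⟩
    · exact ⟨k, i, h, Or.inr h1⟩
    · exact ⟨k, i, h, Or.inl h1⟩⟩
  loopless := ⟨by
    rintro u ⟨k, i, h, ⟨h1, h2⟩ | ⟨h1, h2⟩⟩
    · exact node_succ_ne h (h1.symm.trans h2)
    · exact node_succ_ne h (h1.symm.trans h2)⟩

lemma adj_node {k : Fin 3} {i : ℕ} (h : i < len k) :
    (thetaGraph len).Adj (node len k i) (node len k (i + 1)) :=
  ⟨k, i, h, Or.inl ⟨rfl, rfl⟩⟩

/-- the neighbours of an inner vertex -/
lemma adj_mid {k : Fin 3} {i : ℕ} (h0 : 0 < i) (h1 : i < len k) {y : Vertex len}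
    (h : (thetaGraph len).Adj (node len k i) y) :
    y = node len k (i + 1) ∨ y = node len k (i - 1) := by
  obtain ⟨l, j, hj, ⟨h2, h3⟩ | ⟨h2, h3⟩⟩ := h
  · obtain ⟨rfl, rfl⟩ := node_inj h0 h1 h2
    exact Or.inl h3
  · obtain ⟨rfl, rfl⟩ := node_inj h0 h1 h3
    exact Or.inr (by simpa using h2)

/-- the neighbours of `s` -/
lemma adj_s {y : Vertex len}
    (h : (thetaGraph len).Adj Vertex.s y) : ∃ k, y = node len k 1 := by
  obtain ⟨l, j, hj, ⟨h2, h3⟩ | ⟨h2, h3⟩⟩ := h
  · rcases Nat.eq_zero_or_pos j with h0 | h0
    · subst h0; exact ⟨l, h3⟩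
    · exact absurd h2.symm (node_ne_s h0)
  · exact absurd h3.symm (node_ne_s (Nat.succ_pos j))

lemma vertex_cases (v : Vertex len) : v = Vertex.s ∨ v = Vertex.t ∨
    ∃ k i, 0 < i ∧ i < len k ∧ v = node len k i := by
  cases v with
  | s => exact Or.inl rfl
  | t => exact Or.inr (Or.inl rfl)
  | mid k i h => exact Or.inr (Or.inr ⟨k, i, h.1, h.2, (node_mid h.1 h.2).symm⟩)

section runs

variable {P : PathSystem (thetaGraph len)}

/-- `Run k i j`: walking up branch `k` from its `i`-th vertex to the `j`-th one is what `P` does. -/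
def Run (P : PathSystem (thetaGraph len)) (k : Fin 3) (i j : ℕ) : Prop :=
  ∀ l, i ≤ l → l < j → P.Edge (node len k l) (node len k (l + 1)) ∧
    P.Mem (node len k (l + 1)) (node len k l) (node len k j)

lemma Run.mono_left {k : Fin 3} {i i' j : ℕ} (h : Run P k i j) (hi : i ≤ i') : Run P k i' j :=
  fun l hl hlj => h l (hi.trans hl) hlj

/-- the vertices between -/
lemma Run.mem_of {k : Fin 3} {i j : ℕ} (hP : P.Consistent) (h : Run P k i j) {x : ℕ} (hx : i ≤ x)
    (hxj : x ≤ j) : P.Mem (node len k x) (node len k i) (node len k j) := by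
  induction x, hx using Nat.le_induction with
  | base => exact P.mem_left _ _
  | succ x hx ih =>
    have h1 := ih (by omega)
    have h2 := (h x hx (by omega)).2
    exact (PathSystem.mem_trans hP h1 h2).1

lemma Run.mono_right {k : Fin 3} {i j j' : ℕ} (hP : P.Consistent) (h : Run P k i j) (hj : j' ≤ j) :
    Run P k i j' := by
  intro l hl hlj
  refine ⟨(h l hl (by omega)).1, ?_⟩
  have h1 := (h l hl (by omega)).2
  have h2 : P.Mem (node len k j') (node len k (l + 1)) (node len k j) :=
    (h.mono_left (by omega : i ≤ l + 1)).mem_of hP (by omega) hj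
  exact (PathSystem.mem_trans hP h1 h2).2

/-- all vertices of a run -/
lemma Run.mem_iff {k : Fin 3} {i j : ℕ} (hP : P.Consistent) (h : Run P k i j) (hij : i ≤ j)
    {x : Vertex len} : P.Mem x (node len k i) (node len k j) ↔ ∃ l, i ≤ l ∧ l ≤ j ∧ x = node len k l := by
  constructor
  · intro hx
    obtain ⟨d, rfl⟩ := Nat.exists_eq_add_of_le hij
    clear hij
    induction d generalizing i with
    | zero =>
      refine ⟨i, le_rfl, by omega, ?_⟩
      have : P.len (node len k i) (node len k i) = 0 := by
        have h0 : P.path (node len k i) (node len k i) = Walk.nil :=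
          (Walk.isPath_iff_eq_nil (p := P.path (node len k i) (node len k i))).1 (P.isPath _ _)
        unfold PathSystem.len
        rw [h0]; rfl
      have e := PathSystem.len_add hP hx
      simp only [Nat.add_zero] at e
      exact (P.len_eq_zero (by omega)).symm
    | succ d ih =>
      obtain ⟨h1, h2⟩ := h i le_rfl (by omega)
      rcases (PathSystem.mem_split hP h2).1 hx with h3 | h3
      · rcases (PathSystem.mem_edge h1).1 h3 with h4 | h4
        · exact ⟨i, le_rfl, by omega, h4⟩
        · exact ⟨i + 1, by omega, by omega, h4⟩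
      · have e : i + (d + 1) = i + 1 + d := by omega
        rw [e] at h3 h
        obtain ⟨l, hl1, hl2, hl3⟩ := ih (h.mono_left (by omega)) h3
        exact ⟨l, by omega, by omega, hl3⟩
  · rintro ⟨l, h1, h2, rfl⟩
    exact h.mem_of hP h1 h2

lemma Run.not_t {k : Fin 3} {i j : ℕ} (hP : P.Consistent) (h : Run P k i j) (hij : i ≤ j)
    (hj : j < len k) : ¬ P.Mem Vertex.t (node len k i) (node len k j) := by
  rw [h.mem_iff hP hij]
  rintro ⟨l, _, h2, h3⟩
  exact node_ne_t (by omega) h3.symm

lemma Run.not_s {k : Fin 3} {i j : ℕ} (hP : P.Consistent) (h : Run P k i j) (hij : i ≤ j)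
    (hi : 0 < i) : ¬ P.Mem Vertex.s (node len k i) (node len k j) := by
  rw [h.mem_iff hP hij]
  rintro ⟨l, h1, _, h3⟩
  exact node_ne_s (by omega) h3.symm

/-- Going up from `i` towards `v`. -/
def Up (P : PathSystem (thetaGraph len)) (k : Fin 3) (i : ℕ) (v : Vertex len) : Prop :=
  P.Edge (node len k i) (node len k (i + 1)) ∧ P.Mem (node len k (i + 1)) (node len k i) v

/-- Going down from `i` towards `v`. -/
def Down (P : PathSystem (thetaGraph len)) (k : Fin 3) (i : ℕ) (v : Vertex len) : Prop :=
  P.Edge (node len k i) (node len k (i - 1)) ∧ P.Mem (node len k (i - 1)) (node len k i) v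

lemma up_or_down (hP : P.Consistent) {k : Fin 3} {i : ℕ} (h0 : 0 < i) (h1 : i < len k)
    {v : Vertex len} (hv : node len k i ≠ v) : Up P k i v ∨ Down P k i v := by
  obtain ⟨y, h2, h3, h4⟩ := PathSystem.first_step hP hv
  rcases adj_mid h0 h1 h2 with rfl | rfl
  · exact Or.inl ⟨h4, h3⟩
  · exact Or.inr ⟨h4, h3⟩

lemma Up.next (hP : P.Consistent) {k : Fin 3} {i : ℕ} {v : Vertex len} (h : Up P k i v)
    (h1 : i + 1 < len k) (hv : node len k (i + 1) ≠ v) : Up P k (i + 1) v := by
  rcases up_or_down hP (Nat.succ_pos i) h1 hv with h2 | h2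
  · exact h2
  · exfalso
    have h3 : P.Mem (node len k i) (node len k (i + 1)) v := by simpa using h2.2
    have := PathSystem.not_back hP h.2 h3
    exact node_succ_ne (by omega) this.symm

lemma Down.next (hP : P.Consistent) {k : Fin 3} {i : ℕ} {v : Vertex len} (h : Down P k (i + 1) v)
    (h0 : 0 < i) (h1 : i < len k) (hv : node len k i ≠ v) : Down P k i v := by
  rcases up_or_down hP h0 h1 hv with h2 | h2
  · exfalso
    have h3 : P.Mem (node len k i) (node len k (i + 1)) v := by simpa using h.2
    have := PathSystem.not_back hP h2.2 h3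
    exact node_succ_ne (by omega) this.symm
  · exact h2

/-- Going up from `i` towards `v` one reaches the `j`-th vertex if `v` is not passed before. -/
lemma Up.run (hP : P.Consistent) {k : Fin 3} {i : ℕ} {v : Vertex len} (h : Up P k i v)
    {j : ℕ} (hij : i < j) (hj : j ≤ len k) (hv : ∀ l, i < l → l < j → node len k l ≠ v) :
    Run P k i j ∧ P.Mem (node len k j) (node len k i) v := by
  have hup : ∀ l, i ≤ l → l < j → Up P k l v := by
    intro l hl
    induction l, hl using Nat.le_induction with
    | base => intro _; exact h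
    | succ l hl ih =>
      intro hlj
      exact (ih (by omega)).next hP (by omega) (hv _ (by omega) hlj)
  have hmem : ∀ l, i ≤ l → l ≤ j → P.Mem (node len k j) (node len k l) v := by
    intro l hl hlj
    obtain ⟨d, rfl⟩ := Nat.exists_eq_add_of_le hlj
    clear hij
    induction d generalizing l with
    | zero => exact P.mem_left _ _
    | succ d ih =>
      have h1 := ih (l + 1) (by omega) (by rw [show l + 1 + d = l + (d + 1) by omega]; exact hj)
        (by rw [show l + 1 + d = l + (d + 1) by omega]; exact hv)
        (by rw [show l + 1 + d = l + (d + 1) by omega]; exact hup) (by omega)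
      rw [show l + 1 + d = l + (d + 1) by omega] at h1
      have h2 := (hup l hl (by omega)).2
      exact (PathSystem.mem_trans hP h2 h1).1
  refine ⟨?_, hmem i le_rfl hij.le⟩
  intro l hl hlj
  refine ⟨(hup l hl hlj).1, ?_⟩
  have h1 := (hup l hl hlj).2
  have h2 := hmem (l + 1) (by omega) (by omega)
  exact (PathSystem.mem_trans hP h1 h2).2

/-- Going down from `j` towards `v` one reaches the `i`-th vertex if `v` is not passed before. -/
lemma Down.run (hP : P.Consistent) {k : Fin 3} {j : ℕ} {v : Vertex len} (h : Down P k j v)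
    {i : ℕ} (hij : i < j) (hj : j ≤ len k) (hv : ∀ l, i < l → l < j → node len k l ≠ v) :
    Run P k i j ∧ P.Mem (node len k i) (node len k j) v := by
  have hdown : ∀ l, i < l → l ≤ j → Down P k l v := by
    intro l hl hlj
    obtain ⟨d, rfl⟩ := Nat.exists_eq_add_of_le hlj
    clear hij
    induction d generalizing l with
    | zero => exact h
    | succ d ih =>
      have e : l + 1 + d = l + (d + 1) := by omega
      have h1 := ih (l + 1) (by omega) (by rw [e]; exact h) (by rw [e]; exact hj)
        (by rw [e]; exact hv) (by omega)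
      exact h1.next hP (by omega) (by omega) (hv l hl (by omega))
  have hmem : ∀ l, i ≤ l → l ≤ j → P.Mem (node len k i) (node len k l) v := by
    intro l hl
    induction l, hl using Nat.le_induction with
    | base => intro _; exact P.mem_left _ _
    | succ l hl ih =>
      intro hlj
      have h1 := ih (by omega)
      have h2 : P.Mem (node len k l) (node len k (l + 1)) v := by
        simpa using (hdown (l + 1) (by omega) hlj).2
      exact (PathSystem.mem_trans hP h2 h1).1
  refine ⟨?_, hmem j hij.le le_rfl⟩
  intro l hl hlj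
  have hd := hdown (l + 1) (by omega) (by omega)
  refine ⟨?_, ?_⟩
  · have := P.edge_comm hd.1
    simpa using this
  · -- node len k (l+1) on the path from node len k l to node len k j
    -- first: node len k l on path from node len k j to v, node len k (l+1) as well
    have hm : ∀ m, l + 1 ≤ m → m ≤ j → P.Mem (node len k (l + 1)) (node len k m) (node len k l) := by
      intro m hm
      induction m, hm using Nat.le_induction with
      | base => intro _; exact P.mem_left _ _
      | succ m hm ih =>
        intro hmj
        have h1 := ih (by omega)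
        have hd' := hdown (m + 1) (by omega) hmj
        have h2 : P.Mem (node len k m) (node len k (m + 1)) v := by simpa using hd'.2
        -- node len k l on path (node len k m) v
        have h3 : ∀ m', l ≤ m' → m' ≤ j → P.Mem (node len k l) (node len k m') v := by
          intro m' hm'
          induction m', hm' using Nat.le_induction with
          | base => intro _; exact P.mem_left _ _
          | succ m' hm' ih' =>
            intro hmj'
            have h4 := ih' (by omega)
            have h5 : P.Mem (node len k m') (node len k (m' + 1)) v := by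
              simpa using (hdown (m' + 1) (by omega) hmj').2
            exact (PathSystem.mem_trans hP h5 h4).1
        have h4 := h3 m (by omega) (by omega)
        -- node len k m on path (node len k (m+1)) (node len k l)
        have h5 := (PathSystem.mem_trans hP h2 h4).2
        exact (PathSystem.mem_trans hP h5 h1).1
    have := hm j (by omega) le_rfl
    exact P.mem_comm.1 this

/-- the inner vertex `i` of branch `k` is reached from `t` through `s` -/
def ZL (P : PathSystem (thetaGraph len)) (k : Fin 3) (i : ℕ) : Prop :=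
  P.Mem Vertex.s Vertex.t (node len k i)

/-- the inner vertex `i` of branch `k` is reached from `s` through `t` -/
def ZR (P : PathSystem (thetaGraph len)) (k : Fin 3) (i : ℕ) : Prop :=
  P.Mem Vertex.t Vertex.s (node len k i)

lemma st_ne : (Vertex.s : Vertex len) ≠ Vertex.t := by intro h; cases h

lemma len_st_pos : 0 < P.len Vertex.s Vertex.t := by
  rcases Nat.eq_zero_or_pos (P.len Vertex.s Vertex.t) with h | h
  · exact absurd (P.len_eq_zero h) st_ne
  · exact h

lemma exists_central (hP : P.Consistent) (hlen : ∀ k, 2 ≤ len k) : ∃ k, Run P k 0 (len k) := by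
  obtain ⟨y, h1, h2, h3⟩ := PathSystem.first_step hP (P := P) (st_ne (len := len))
  obtain ⟨k, rfl⟩ := adj_s h1
  have hk := hlen k
  refine ⟨k, ?_⟩
  have hup : Up P k 1 Vertex.t := by
    rcases up_or_down hP Nat.one_pos (by omega) (node_ne_t (by omega) : node len k 1 ≠ Vertex.t) with h | h
    · exact h
    · exfalso
      have h4 : P.Mem Vertex.s (node len k 1) Vertex.t := by
        have := h.2
        simpa [node_zero] using this
      have := PathSystem.not_back hP h2 h4
      exact node_ne_s Nat.one_pos this
  have hrun := (hup.run hP (j := len k) (by omega) le_rfl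
    (fun l _ hl => node_ne_t hl)).1
  intro l hl hlj
  rcases Nat.eq_zero_or_pos l with h0 | h0
  · subst h0
    rw [node_zero, node_len (by omega)]
    exact ⟨h3, h2⟩
  · exact hrun l h0 hlj

/-- paths from an inner vertex to `s` -/
lemma run_or_zr (hP : P.Consistent) {k : Fin 3} {i : ℕ} (h0 : 0 < i) (h1 : i < len k) :
    Run P k 0 i ∨ (Run P k i (len k) ∧ ZR P k i) := by
  rcases up_or_down hP h0 h1 (node_ne_s h0) with h | h
  · right
    have := h.run hP (j := len k) h1 le_rfl (fun l hl _ => node_ne_s (by omega))
    refine ⟨this.1, ?_⟩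
    have h2 := this.2
    rw [node_len (by omega)] at h2
    exact P.mem_comm.1 h2
  · left
    exact (h.run hP (i := 0) h0 h1.le (fun l hl _ => node_ne_s hl)).1

/-- paths from an inner vertex to `t` -/
lemma run_or_zl (hP : P.Consistent) {k : Fin 3} {i : ℕ} (h0 : 0 < i) (h1 : i < len k) :
    Run P k i (len k) ∨ (Run P k 0 i ∧ ZL P k i) := by
  rcases up_or_down hP h0 h1 (node_ne_t h1) with h | h
  · left
    exact (h.run hP (j := len k) h1 le_rfl (fun l _ hl => node_ne_t hl)).1
  · right
    have := h.run hP (i := 0) h0 h1.le (fun l _ hl => node_ne_t (by omega))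
    refine ⟨this.1, ?_⟩
    have h2 := this.2
    rw [node_zero] at h2
    exact P.mem_comm.1 h2

lemma not_zl_zr (hP : P.Consistent) {k : Fin 3} {i : ℕ} (h : ZL P k i) : ¬ ZR P k i := by
  intro h'
  have e1 := PathSystem.len_add hP h
  have e2 := PathSystem.len_add hP h'
  have e3 := P.len_comm (Vertex.s : Vertex len) Vertex.t
  have e4 := len_st_pos (P := P)
  omega

lemma run_of_not_zr (hP : P.Consistent) {k : Fin 3} {i : ℕ} (h0 : 0 < i) (h1 : i < len k)
    (h : ¬ ZR P k i) : Run P k 0 i := by
  rcases run_or_zr hP h0 h1 with h2 | h2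
  · exact h2
  · exact absurd h2.2 h

lemma run_of_not_zl (hP : P.Consistent) {k : Fin 3} {i : ℕ} (h0 : 0 < i) (h1 : i < len k)
    (h : ¬ ZL P k i) : Run P k i (len k) := by
  rcases run_or_zl hP h0 h1 with h2 | h2
  · exact h2
  · exact absurd h2.2 h

lemma ZL.down (hP : P.Consistent) {k : Fin 3} {i i' : ℕ} (h1 : i < len k)
    (h : ZL P k i) (h0 : 0 < i') (hi : i' ≤ i) : ZL P k i' := by
  have hr := run_of_not_zr hP (by omega) h1 (not_zl_zr hP h)
  have hm := hr.mem_of hP (Nat.zero_le i') hi
  rw [node_zero] at hm
  exact (PathSystem.mem_trans hP h hm).2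

lemma ZR.up (hP : P.Consistent) {k : Fin 3} {i i' : ℕ} (h0 : 0 < i)
    (h : ZR P k i) (hi : i ≤ i') (h1 : i' < len k) : ZR P k i' := by
  have hr := run_of_not_zl hP h0 (by omega) (fun h' => not_zl_zr hP h' h)
  have hm := hr.mem_of hP hi h1.le
  rw [node_len (by omega)] at hm
  exact (PathSystem.mem_trans hP h (P.mem_comm.1 hm)).2

lemma ZL_lt_ZR (hP : P.Consistent) {k : Fin 3} {i j : ℕ} (hi : i < len k) (h0 : 0 < j)
    (h : ZL P k i) (h' : ZR P k j) : i < j := by
  by_contra hc
  exact not_zl_zr hP (h.down hP hi h0 (by omega)) h'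

lemma central_zone (hP : P.Consistent) {k : Fin 3} (hr : Run P k 0 (len k)) {i : ℕ} (h0 : 0 < i)
    (h1 : i < len k) : ¬ ZL P k i ∧ ¬ ZR P k i := by
  have hm := hr.mem_of hP (Nat.zero_le i) h1.le
  rw [node_zero, node_len (by omega)] at hm
  have e1 := PathSystem.len_add hP hm
  have e3 := P.len_comm (Vertex.s : Vertex len) Vertex.t
  have e4 := P.len_comm (node len k i) Vertex.t
  have e5 := P.len_comm (node len k i) Vertex.s
  constructor
  · intro h
    have e2 := PathSystem.len_add hP h
    have : P.len Vertex.s (node len k i) = 0 := by omega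
    exact node_ne_s h0 (P.len_eq_zero this).symm
  · intro h
    have e2 := PathSystem.len_add hP h
    have : P.len Vertex.t (node len k i) = 0 := by omega
    exact node_ne_t h1 (P.len_eq_zero this).symm

/-- two inner vertices of the same branch -/
lemma same_branch (hP : P.Consistent) {k : Fin 3} {i j : ℕ} (h0 : 0 < i) (hij : i < j)
    (h1 : j < len k) : Run P k i j ∨ (P.Mem Vertex.s (node len k i) (node len k j) ∧
      P.Mem Vertex.t (node len k i) (node len k j) ∧ Run P k 0 i ∧ Run P k j (len k)) := by
  have hne : node len k i ≠ node len k j := by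
    intro e
    have := (node_inj h0 (by omega) e).2
    omega
  have hne' : ∀ a b, 0 < a → a < len k → a ≠ b → node len k a ≠ node len k b := by
    intro a b ha ha' hab e
    exact hab (node_inj ha ha' e).2
  rcases up_or_down hP h0 (by omega) hne with h | h
  · left
    exact (h.run hP (j := j) hij h1.le (fun l hl hlj => hne' l j (by omega) (by omega)
      (by omega))).1
  · rcases up_or_down hP (by omega) h1 hne.symm with h' | h'
    · right
      have r1 := h.run hP (i := 0) h0 (by omega) (fun l hl hlj => hne' l j (by omega) (by omega)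
        (by omega))
      have r2 := h'.run hP (j := len k) h1 le_rfl (fun l hl hlj => hne' l i (by omega) (by omega)
        (by omega))
      have r3 := r1.2
      have r4 := r2.2
      rw [node_zero] at r3
      rw [node_len (by omega)] at r4
      exact ⟨r3, P.mem_comm.1 r4, r1.1, r2.1⟩
    · left
      exact (h'.run hP (i := i) hij h1.le (fun l hl hlj => hne' l i (by omega) (by omega)
        (by omega))).1

/-- two inner vertices of different branches -/
lemma cross_branch (hP : P.Consistent) {k l : Fin 3} (hkl : k ≠ l) {i j : ℕ} (h0 : 0 < i)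
    (h1 : i < len k) (h2 : 0 < j) (h3 : j < len l) :
    P.Mem Vertex.s (node len k i) (node len l j) ∨ P.Mem Vertex.t (node len k i) (node len l j) := by
  have hne : ∀ a, node len k a ≠ node len l j := by
    intro a e
    exact hkl (node_inj h2 h3 e.symm).1.symm
  rcases up_or_down hP h0 h1 (hne i) with h | h
  · right
    have := (h.run hP (j := len k) h1 le_rfl (fun l _ _ => hne l)).2
    rwa [node_len (by omega)] at this
  · left
    have := (h.run hP (i := 0) h0 h1.le (fun l _ _ => hne l)).2
    rwa [node_zero] at this

/-- monotonicity of the relation `s ∈ P u v` between two branches -/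
lemma mem_s_down (hP : P.Consistent) {k : Fin 3} {i i' : ℕ} {v : Vertex len}
    (h1 : i < len k) (hz : ¬ ZR P k i) (h0 : 0 < i') (hi : i' ≤ i)
    (h : P.Mem Vertex.s (node len k i) v) : P.Mem Vertex.s (node len k i') v := by
  have hr := run_of_not_zr hP (by omega) h1 hz
  have hm := hr.mem_of hP (Nat.zero_le i') hi
  rw [node_zero] at hm
  exact (PathSystem.mem_trans' hP h (P.mem_comm.1 hm)).2

end runs

end Pool.Agent.U892.Theta
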