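import Mathlib

set_option autoImplicit false

namespace Pool.Agent.U892.Theta

open Finset

/-- a cut of a finite increasing sequence -/
lemma cut_exists (Q : ℕ → Prop) (U : ℕ → ℝ) (p : ℕ → Prop)
    (hU : ∀ i j, Q i → Q j → i ≤ j → U i ≤ U j)
    (hp : ∀ i j, Q i → Q j → i ≤ j → p j → p i) (M : ℝ) (hM : ∀ i, Q i → U i ≤ M) :
    ∃ A : ℝ, (∀ i, Q i → p i → U i ≤ A) ∧ (∀ i, Q i → ¬ p i → A ≤ U i) := by
  classical
  by_cases h : ∃ i, Q i ∧ ¬ p i
  · refine ⟨U (Nat.find h), ?_, ?_⟩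
    · intro i hi hpi
      have h1 := Nat.find_spec h
      refine hU _ _ hi h1.1 ?_
      by_contra hc
      exact h1.2 (hp _ _ h1.1 hi (by omega) hpi)
    · intro i hi hpi
      have h1 := Nat.find_spec h
      exact hU _ _ h1.1 hi (Nat.find_min' h ⟨hi, hpi⟩)
  · push Not at h
    exact ⟨M, fun i hi _ => hM i hi, fun i hi hpi => absurd (h i hi) hpi⟩

/-- Positions of the inner vertices of the middle zones if one zone has at most one element. -/
theorem mid_exists (N : ℕ) (Z : Fin 3 → ℕ → Prop) (S : Fin 3 → ℕ → Fin 3 → ℕ → Prop)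
    (hZ : ∀ k i, Z k i → i < N)
    (hsymm : ∀ k i l j, S k i l j ↔ S l j k i)
    (hdown : ∀ k l i i' j, k ≠ l → Z k i → Z k i' → Z l j → i' ≤ i → S k i l j → S k i' l j)
    (hone : ∃ k1, ∀ i j, Z k1 i → Z k1 j → i = j) :
    ∃ (h : ℝ) (f : Fin 3 → ℕ → ℝ), 0 < h ∧ (∀ k i, Z k i → |f k i| < h) ∧
      (∀ k i j, Z k i → Z k j → i < j → f k i < f k j) ∧
      ∀ k l i j, k ≠ l → Z k i → Z l j →
        (S k i l j → f k i + f l j ≤ 0) ∧ (¬ S k i l j → 0 ≤ f k i + f l j) := by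
  classical
  obtain ⟨k1, hk1⟩ := hone
  obtain ⟨k2, k3, h12, h13, h23, hall⟩ : ∃ k2 k3 : Fin 3, k1 ≠ k2 ∧ k1 ≠ k3 ∧ k2 ≠ k3 ∧
      ∀ k, k = k1 ∨ k = k2 ∨ k = k3 := by
    clear hk1
    revert k1
    decide
  have hdown' : ∀ k l i j j', k ≠ l → Z k i → Z l j → Z l j' → j' ≤ j → S k i l j → S k i l j' := by
    intro k l i j j' hkl hi hj hj' hle h
    rw [hsymm] at h ⊢
    exact hdown l k j j' i hkl.symm hj hj' hi hle h
  let U : ℕ → ℕ := fun i => ((range N).filter (fun i' => Z k2 i' ∧ i' < i)).card +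
    ((range N).filter (fun j => Z k3 j ∧ ¬ S k2 i k3 j)).card
  let W : ℕ → ℕ := fun j => ((range N).filter (fun j' => Z k3 j' ∧ j < j')).card +
    ((range N).filter (fun i => Z k2 i ∧ S k2 i k3 j)).card
  have hUb : ∀ i, U i ≤ 2 * N := by
    intro i
    have h1 := card_filter_le (range N) (fun i' => Z k2 i' ∧ i' < i)
    have h2 := card_filter_le (range N) (fun j => Z k3 j ∧ ¬ S k2 i k3 j)
    rw [card_range] at h1 h2
    show _ + _ ≤ _
    omega
  have hWb : ∀ i, W i ≤ 2 * N := by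
    intro j
    have h1 := card_filter_le (range N) (fun j' => Z k3 j' ∧ j < j')
    have h2 := card_filter_le (range N) (fun i => Z k2 i ∧ S k2 i k3 j)
    rw [card_range] at h1 h2
    show _ + _ ≤ _
    omega
  have hUmono : ∀ i i2, Z k2 i → Z k2 i2 → i < i2 → U i < U i2 := by
    intro i i2 hi hi2 hlt
    apply Nat.add_lt_add_of_lt_of_le
    · apply card_lt_card
      rw [ssubset_iff_of_subset]
      · exact ⟨i, by simp [hZ k2 i hi, hi, hlt], by simp⟩
      · intro x hx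
        simp only [mem_filter, mem_range] at hx ⊢
        exact ⟨hx.1, hx.2.1, by omega⟩
    · apply card_le_card
      intro x hx
      simp only [mem_filter, mem_range] at hx ⊢
      refine ⟨hx.1, hx.2.1, fun hS => hx.2.2 ?_⟩
      exact hdown k2 k3 i2 i x h23 hi2 hi hx.2.1 hlt.le hS
  have hWmono : ∀ j j2, Z k3 j → Z k3 j2 → j < j2 → W j2 < W j := by
    intro j j2 hj hj2 hlt
    apply Nat.add_lt_add_of_lt_of_le
    · apply card_lt_card
      rw [ssubset_iff_of_subset]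
      · exact ⟨j2, by simp [hZ k3 j2 hj2, hj2, hlt], by simp⟩
      · intro x hx
        simp only [mem_filter, mem_range] at hx ⊢
        exact ⟨hx.1, hx.2.1, by omega⟩
    · apply card_le_card
      intro x hx
      simp only [mem_filter, mem_range] at hx ⊢
      exact ⟨hx.1, hx.2.1, hdown' k2 k3 x j2 j h23 hx.2.1 hj2 hj hlt.le hx.2.2⟩
  have hUW : ∀ i j, Z k2 i → Z k3 j → S k2 i k3 j → U i ≤ W j := by
    intro i j hi hj hS
    show _ + _ ≤ _ + _
    rw [add_comm]
    apply Nat.add_le_add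
    · apply card_le_card
      intro x hx
      simp only [mem_filter, mem_range] at hx ⊢
      refine ⟨hx.1, hx.2.1, ?_⟩
      by_contra hc
      exact hx.2.2 (hdown' k2 k3 i j x h23 hi hj hx.2.1 (by omega) hS)
    · apply card_le_card
      intro x hx
      simp only [mem_filter, mem_range] at hx ⊢
      exact ⟨hx.1, hx.2.1, hdown k2 k3 i x j h23 hi hx.2.1 hj hx.2.2.le hS⟩
  have hWU : ∀ i j, Z k2 i → Z k3 j → ¬ S k2 i k3 j → W j ≤ U i := by
    intro i j hi hj hS
    show _ + _ ≤ _ + _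
    rw [add_comm]
    apply Nat.add_le_add
    · apply card_le_card
      intro x hx
      simp only [mem_filter, mem_range] at hx ⊢
      refine ⟨hx.1, hx.2.1, ?_⟩
      by_contra hc
      exact hS (hdown k2 k3 x i j h23 hx.2.1 hi hj (by omega) hx.2.2)
    · apply card_le_card
      intro x hx
      simp only [mem_filter, mem_range] at hx ⊢
      refine ⟨hx.1, hx.2.1, fun hS' => hS ?_⟩
      exact hdown' k2 k3 i x j h23 hi hx.2.1 hj hx.2.2.le hS'
  -- the cuts
  obtain ⟨A, B, hA1, hA2, hB1, hB2⟩ : ∃ A B : ℝ,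
      (∀ z i, Z k1 z → Z k2 i → S k1 z k2 i → (U i : ℝ) ≤ A) ∧
      (∀ z i, Z k1 z → Z k2 i → ¬ S k1 z k2 i → A ≤ (U i : ℝ)) ∧
      (∀ z j, Z k1 z → Z k3 j → S k1 z k3 j → B ≤ (W j : ℝ)) ∧
      (∀ z j, Z k1 z → Z k3 j → ¬ S k1 z k3 j → (W j : ℝ) ≤ B) := by
    by_cases hz : ∃ z, Z k1 z
    · obtain ⟨z, hz⟩ := hz
      obtain ⟨A, hA1, hA2⟩ := cut_exists (Z k2) (fun i => (U i : ℝ)) (fun i => S k1 z k2 i)
        (by
          intro i j hi hj hij
          rcases Nat.lt_or_ge i j with h | h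
          · exact_mod_cast (hUmono i j hi hj h).le
          · have : i = j := le_antisymm hij h
            subst this; exact le_rfl)
        (by
          intro i j hi hj hij hS
          exact hdown' k1 k2 z j i h12 hz hj hi hij hS) (2 * N)
        (by intro i _; exact_mod_cast hUb i)
      obtain ⟨B, hB1, hB2⟩ := cut_exists (Z k3) (fun i => -(W i : ℝ)) (fun i => S k1 z k3 i)
        (by
          intro i j hi hj hij
          rcases Nat.lt_or_ge i j with h | h
          · have : (W j : ℝ) ≤ W i := by exact_mod_cast (hWmono i j hi hj h).le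
            linarith
          · have : i = j := le_antisymm hij h
            subst this; exact le_rfl)
        (by
          intro i j hi hj hij hS
          exact hdown' k1 k3 z j i h13 hz hj hi hij hS) 0
        (by intro i _; simp)
      refine ⟨A, -B, ?_, ?_, ?_, ?_⟩
      · intro z' i hz' hi hS
        rw [hk1 z' z hz' hz] at hS
        exact hA1 i hi hS
      · intro z' i hz' hi hS
        rw [hk1 z' z hz' hz] at hS
        exact hA2 i hi hS
      · intro z' i hz' hi hS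
        rw [hk1 z' z hz' hz] at hS
        have := hB1 i hi hS
        linarith
      · intro z' i hz' hi hS
        rw [hk1 z' z hz' hz] at hS
        have := hB2 i hi hS
        linarith
    · push Not at hz
      exact ⟨0, 0, fun z _ h => absurd h (hz z), fun z _ h => absurd h (hz z),
        fun z _ h => absurd h (hz z), fun z _ h => absurd h (hz z)⟩
  let c : ℝ := (A + B) / 2
  let ζ : ℝ := (B - A) / 2
  let f : Fin 3 → ℕ → ℝ := fun k i => if k = k1 then ζ else if k = k2 then U i - c else c - W i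
  have f1 : ∀ i, f k1 i = ζ := fun i => by simp [f]
  have f2 : ∀ i, f k2 i = U i - c := fun i => by simp [f, h12.symm]
  have f3 : ∀ i, f k3 i = c - W i := fun i => by simp [f, h13.symm, h23.symm]
  have g12 : ∀ i j, Z k1 i → Z k2 j →
      (S k1 i k2 j → f k1 i + f k2 j ≤ 0) ∧ (¬ S k1 i k2 j → 0 ≤ f k1 i + f k2 j) := by
    intro i j hi hj
    rw [f1, f2]
    constructor
    · intro hS
      have := hA1 i j hi hj hS
      simp only [c, ζ]; linarith
    · intro hS
      have := hA2 i j hi hj hS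
      simp only [c, ζ]; linarith
  have g13 : ∀ i j, Z k1 i → Z k3 j →
      (S k1 i k3 j → f k1 i + f k3 j ≤ 0) ∧ (¬ S k1 i k3 j → 0 ≤ f k1 i + f k3 j) := by
    intro i j hi hj
    rw [f1, f3]
    constructor
    · intro hS
      have := hB1 i j hi hj hS
      simp only [c, ζ]; linarith
    · intro hS
      have := hB2 i j hi hj hS
      simp only [c, ζ]; linarith
  have g23 : ∀ i j, Z k2 i → Z k3 j →
      (S k2 i k3 j → f k2 i + f k3 j ≤ 0) ∧ (¬ S k2 i k3 j → 0 ≤ f k2 i + f k3 j) := by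
    intro i j hi hj
    rw [f2, f3]
    constructor
    · intro hS
      have : (U i : ℝ) ≤ W j := by exact_mod_cast hUW i j hi hj hS
      linarith
    · intro hS
      have : (W j : ℝ) ≤ U i := by exact_mod_cast hWU i j hi hj hS
      linarith
  have flip : ∀ k l, (∀ i j, Z k i → Z l j →
      (S k i l j → f k i + f l j ≤ 0) ∧ (¬ S k i l j → 0 ≤ f k i + f l j)) →
      ∀ i j, Z l i → Z k j →
      (S l i k j → f l i + f k j ≤ 0) ∧ (¬ S l i k j → 0 ≤ f l i + f k j) := by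
    intro k l hkl i j hi hj
    have := hkl j i hj hi
    rw [hsymm l i k j, add_comm]
    exact this
  refine ⟨|c| + |ζ| + 2 * N + 1, f, ?_, ?_, ?_, ?_⟩
  · positivity
  · intro k i hi
    have hc := le_abs_self c
    have hc' := neg_abs_le c
    have hz1 := abs_nonneg ζ
    have hc1 := abs_nonneg c
    have hN : (0 : ℝ) ≤ N := Nat.cast_nonneg N
    rcases hall k with rfl | rfl | rfl
    · rw [f1]; linarith
    · rw [f2, abs_lt]
      have h1 : (U i : ℝ) ≤ 2 * N := by exact_mod_cast hUb i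
      have h2 : (0 : ℝ) ≤ U i := Nat.cast_nonneg _
      constructor <;> linarith
    · rw [f3, abs_lt]
      have h1 : (W i : ℝ) ≤ 2 * N := by exact_mod_cast hWb i
      have h2 : (0 : ℝ) ≤ W i := Nat.cast_nonneg _
      constructor <;> linarith
  · intro k i j hi hj hij
    rcases hall k with rfl | rfl | rfl
    · exact absurd (hk1 i j hi hj) hij.ne
    · rw [f2, f2]
      have : (U i : ℝ) < U j := by exact_mod_cast hUmono i j hi hj hij
      linarith
    · rw [f3, f3]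
      have : (W j : ℝ) < W i := by exact_mod_cast hWmono i j hi hj hij
      linarith
  · intro k l i j hkl hi hj
    rcases hall k with rfl | rfl | rfl <;> rcases hall l with rfl | rfl | rfl
    · exact absurd rfl hkl
    · exact g12 i j hi hj
    · exact g13 i j hi hj
    · exact flip _ _ g12 i j hi hj
    · exact absurd rfl hkl
    · exact g23 i j hi hj
    · exact flip _ _ g13 i j hi hj
    · exact flip _ _ g23 i j hi hj
    · exact absurd rfl hkl

/-- candidate positions for three zones with two elements each -/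
def table : List (ℤ × ℤ × ℤ × ℤ × ℤ × ℤ) := [
  (-3, 3, -3, 3, -3, 3), (-3, -2, -3, -2, 2, 3), (-3, -2, 2, 3, -3, -2), (-3, -2, 2, 3, 2, 3),
  (0, 1, -1, 0, -1, 0), (0, 1, -1, 0, 0, 1), (0, 1, 0, 1, -1, 0), (-3, -2, -2, -1, 1, 2),
  (-3, -2, -2, -1, 2, 3), (-3, -2, 2, 3, -2, -1), (-2, -1, -3, -2, 1, 2), (-2, -1, -3, -2, 2, 3),
  (-2, -1, 1, 2, -3, -2), (-2, -1, 1, 2, 2, 3), (-2, -1, 2, 3, -3, -2), (-2, -1, 2, 3, 1, 2),
  (1, 2, -2, -1, -1, 0), (1, 2, -1, 0, -2, -1), (1, 2, -1, 0, 0, 1), (-3, -2, -3, -2, -3, -2),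
  (-3, -2, -1, 0, 1, 2), (-2, -1, -2, -1, 2, 3), (-2, -1, 2, 3, -2, -1), (-2, -1, 2, 3, 2, 3),
  (-1, 0, -3, -2, 1, 2), (-1, 0, 1, 2, -3, -2), (1, 2, -1, 0, -1, 0)]

/-- the condition on the four sums for a relation given by two thresholds -/
def okPair (x1 x2 : Fin 3) (a1 a2 b1 b2 : ℤ) : Bool :=
  (if 1 ≤ x1.val then decide (a1 + b1 ≤ 0) else decide (0 ≤ a1 + b1)) &&
  (if 2 ≤ x1.val then decide (a1 + b2 ≤ 0) else decide (0 ≤ a1 + b2)) &&
  (if 1 ≤ x2.val then decide (a2 + b1 ≤ 0) else decide (0 ≤ a2 + b1)) &&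
  (if 2 ≤ x2.val then decide (a2 + b2 ≤ 0) else decide (0 ≤ a2 + b2))

lemma table_ok : ∀ x1 x2 y1 y2 z1 z2 : Fin 3, x2 ≤ x1 → y2 ≤ y1 → z2 ≤ z1 →
    (table.any fun F => decide (F.1 < F.2.1) && decide (F.2.2.1 < F.2.2.2.1) &&
      decide (F.2.2.2.2.1 < F.2.2.2.2.2) &&
      okPair x1 x2 F.1 F.2.1 F.2.2.1 F.2.2.2.1 && okPair y1 y2 F.1 F.2.1 F.2.2.2.2.1 F.2.2.2.2.2 &&
      okPair z1 z2 F.2.2.1 F.2.2.2.1 F.2.2.2.2.1 F.2.2.2.2.2) = true := by
  decide +kernel

lemma thresholds (p : ℕ → ℕ → Prop) (h1 : p 1 2 → p 1 1) (h2 : p 2 1 → p 1 1)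
    (h3 : p 2 2 → p 1 2) (h4 : p 2 2 → p 2 1) :
    ∃ x1 x2 : Fin 3, x2 ≤ x1 ∧ (p 1 1 ↔ 1 ≤ x1.val) ∧ (p 1 2 ↔ 2 ≤ x1.val) ∧
      (p 2 1 ↔ 1 ≤ x2.val) ∧ (p 2 2 ↔ 2 ≤ x2.val) := by
  by_cases a : p 1 1
  · by_cases b : p 1 2
    · by_cases c : p 2 1
      · by_cases d : p 2 2
        · exact ⟨2, 2, by simp, by simp [a], by simp [b], by simp [c], by simp [d]⟩
        · exact ⟨2, 1, by decide, by simp [a], by simp [b], by simp [c], by simp [d]⟩
      · exact ⟨2, 0, by decide, by simp [a], by simp [b], by simp [c], by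
          simp only [Fin.val_zero]; exact ⟨fun h => absurd (h4 h) c, fun h => by omega⟩⟩
    · have d : ¬ p 2 2 := fun h => b (h3 h)
      by_cases c : p 2 1
      · exact ⟨1, 1, by decide, by simp [a], by simp [b], by simp [c], by simp [d]⟩
      · exact ⟨1, 0, by decide, by simp [a], by simp [b], by simp [c], by simp [d]⟩
  · have b : ¬ p 1 2 := fun h => a (h1 h)
    have c : ¬ p 2 1 := fun h => a (h2 h)
    have d : ¬ p 2 2 := fun h => b (h3 h)
    exact ⟨0, 0, by decide, by simp [a], by simp [b], by simp [c], by simp [d]⟩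

lemma okPair_spec {p : ℕ → ℕ → Prop} {x1 x2 : Fin 3} {a1 a2 b1 b2 : ℤ}
    (h11 : p 1 1 ↔ 1 ≤ x1.val) (h12 : p 1 2 ↔ 2 ≤ x1.val) (h21 : p 2 1 ↔ 1 ≤ x2.val)
    (h22 : p 2 2 ↔ 2 ≤ x2.val) (h : okPair x1 x2 a1 a2 b1 b2 = true) {i j : ℕ}
    (hi : i = 1 ∨ i = 2) (hj : j = 1 ∨ j = 2) :
    (p i j → (if i = 1 then a1 else a2) + (if j = 1 then b1 else b2) ≤ 0) ∧
    (¬ p i j → 0 ≤ (if i = 1 then a1 else a2) + (if j = 1 then b1 else b2)) := by
  unfold okPair at h
  simp only [Bool.and_eq_true] at h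
  obtain ⟨⟨⟨e1, e2⟩, e3⟩, e4⟩ := h
  rcases hi with rfl | rfl <;> rcases hj with rfl | rfl
  · rw [h11]
    split_ifs at e1 with hc <;> simp at e1 <;> simp <;> omega
  · rw [h12]
    split_ifs at e2 with hc <;> simp at e2 <;> simp <;> omega
  · rw [h21]
    split_ifs at e3 with hc <;> simp at e3 <;> simp <;> omega
  · rw [h22]
    split_ifs at e4 with hc <;> simp at e4 <;> simp <;> omega

/-- Positions of the inner vertices of the middle zones if each zone is `{1, 2}`. -/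
theorem mid_exists_two (Z : Fin 3 → ℕ → Prop) (S : Fin 3 → ℕ → Fin 3 → ℕ → Prop)
    (hZ : ∀ k i, Z k i ↔ i = 1 ∨ i = 2)
    (hsymm : ∀ k i l j, S k i l j ↔ S l j k i)
    (hdown : ∀ k l i i' j, k ≠ l → Z k i → Z k i' → Z l j → i' ≤ i → S k i l j → S k i' l j) :
    ∃ (h : ℝ) (f : Fin 3 → ℕ → ℝ), 0 < h ∧ (∀ k i, Z k i → |f k i| < h) ∧
      (∀ k i j, Z k i → Z k j → i < j → f k i < f k j) ∧
      ∀ k l i j, k ≠ l → Z k i → Z l j →
        (S k i l j → f k i + f l j ≤ 0) ∧ (¬ S k i l j → 0 ≤ f k i + f l j) := by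
  have hdown' : ∀ k l i j j', k ≠ l → Z k i → Z l j → Z l j' → j' ≤ j → S k i l j → S k i l j' := by
    intro k l i j j' hkl hi hj hj' hle h
    rw [hsymm] at h ⊢
    exact hdown l k j j' i hkl.symm hj hj' hi hle h
  have z1 : ∀ k, Z k 1 := fun k => (hZ k 1).2 (Or.inl rfl)
  have z2 : ∀ k, Z k 2 := fun k => (hZ k 2).2 (Or.inr rfl)
  have hth : ∀ k l, k ≠ l → ∃ x1 x2 : Fin 3, x2 ≤ x1 ∧ (S k 1 l 1 ↔ 1 ≤ x1.val) ∧
      (S k 1 l 2 ↔ 2 ≤ x1.val) ∧ (S k 2 l 1 ↔ 1 ≤ x2.val) ∧ (S k 2 l 2 ↔ 2 ≤ x2.val) := by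
    intro k l hkl
    exact thresholds (fun i j => S k i l j)
      (hdown' k l 1 2 1 hkl (z1 k) (z2 l) (z1 l) (by norm_num))
      (hdown k l 2 1 1 hkl (z2 k) (z1 k) (z1 l) (by norm_num))
      (hdown k l 2 1 2 hkl (z2 k) (z1 k) (z2 l) (by norm_num))
      (hdown' k l 2 2 1 hkl (z2 k) (z2 l) (z1 l) (by norm_num))
  obtain ⟨x1, x2, hx, x11, x12, x21, x22⟩ := hth 0 1 (by decide)
  obtain ⟨y1, y2, hy, y11, y12, y21, y22⟩ := hth 0 2 (by decide)
  obtain ⟨w1, w2, hw, w11, w12, w21, w22⟩ := hth 1 2 (by decide)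
  have ht := table_ok x1 x2 y1 y2 w1 w2 hx hy hw
  rw [List.any_eq_true] at ht
  obtain ⟨⟨a1, a2, b1, b2, c1, c2⟩, hF, hF'⟩ := ht
  simp only [Bool.and_eq_true, decide_eq_true_eq] at hF'
  obtain ⟨⟨⟨⟨⟨ha, hb⟩, hc⟩, h01⟩, h02⟩, h12⟩ := hF'
  let g : Fin 3 → ℕ → ℤ := ![fun i => if i = 1 then a1 else a2, fun i => if i = 1 then b1 else b2,
    fun i => if i = 1 then c1 else c2]
  have g0 : ∀ i, g 0 i = if i = 1 then a1 else a2 := fun i => rfl
  have g1 : ∀ i, g 1 i = if i = 1 then b1 else b2 := fun i => rfl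
  have g2 : ∀ i, g 2 i = if i = 1 then c1 else c2 := fun i => rfl
  have key : ∀ k l i j, k ≠ l → Z k i → Z l j →
        (S k i l j → g k i + g l j ≤ 0) ∧ (¬ S k i l j → 0 ≤ g k i + g l j) := by
    have k01 : ∀ i j, Z 0 i → Z 1 j → (S 0 i 1 j → g 0 i + g 1 j ≤ 0) ∧
        (¬ S 0 i 1 j → 0 ≤ g 0 i + g 1 j) := by
      intro i j hi hj
      rw [g0, g1]
      exact okPair_spec (p := fun i j => S 0 i 1 j) x11 x12 x21 x22 h01 ((hZ _ _).1 hi)
        ((hZ _ _).1 hj)
    have k02 : ∀ i j, Z 0 i → Z 2 j → (S 0 i 2 j → g 0 i + g 2 j ≤ 0) ∧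
        (¬ S 0 i 2 j → 0 ≤ g 0 i + g 2 j) := by
      intro i j hi hj
      rw [g0, g2]
      exact okPair_spec (p := fun i j => S 0 i 2 j) y11 y12 y21 y22 h02 ((hZ _ _).1 hi)
        ((hZ _ _).1 hj)
    have k12 : ∀ i j, Z 1 i → Z 2 j → (S 1 i 2 j → g 1 i + g 2 j ≤ 0) ∧
        (¬ S 1 i 2 j → 0 ≤ g 1 i + g 2 j) := by
      intro i j hi hj
      rw [g1, g2]
      exact okPair_spec (p := fun i j => S 1 i 2 j) w11 w12 w21 w22 h12 ((hZ _ _).1 hi)
        ((hZ _ _).1 hj)
    have flip : ∀ k l, (∀ i j, Z k i → Z l j →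
        (S k i l j → g k i + g l j ≤ 0) ∧ (¬ S k i l j → 0 ≤ g k i + g l j)) →
        ∀ i j, Z l i → Z k j →
        (S l i k j → g l i + g k j ≤ 0) ∧ (¬ S l i k j → 0 ≤ g l i + g k j) := by
      intro k l hkl i j hi hj
      have := hkl j i hj hi
      rw [hsymm l i k j, add_comm]
      exact this
    intro k l i j hkl hi hj
    fin_cases k <;> fin_cases l
    · exact absurd rfl hkl
    · exact k01 i j hi hj
    · exact k02 i j hi hj
    · exact flip _ _ k01 i j hi hj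
    · exact absurd rfl hkl
    · exact k12 i j hi hj
    · exact flip _ _ k02 i j hi hj
    · exact flip _ _ k12 i j hi hj
    · exact absurd rfl hkl
  let M : ℤ := |a1| + |a2| + |b1| + |b2| + |c1| + |c2| + 1
  refine ⟨(M : ℝ), fun k i => (g k i : ℝ), ?_, ?_, ?_, ?_⟩
  · have : 0 < M := by positivity
    exact_mod_cast this
  · intro k i _
    have : |g k i| < M := by
      have p1 := abs_nonneg a1
      have p2 := abs_nonneg a2
      have p3 := abs_nonneg b1
      have p4 := abs_nonneg b2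
      have p5 := abs_nonneg c1
      have p6 := abs_nonneg c2
      fin_cases k
      · show |g 0 i| < M
        rw [g0]; split_ifs <;> simp only [M] <;> omega
      · show |g 1 i| < M
        rw [g1]; split_ifs <;> simp only [M] <;> omega
      · show |g 2 i| < M
        rw [g2]; split_ifs <;> simp only [M] <;> omega
    show |((g k i : ℤ) : ℝ)| < (M : ℝ)
    exact_mod_cast this
  · intro k i j hi hj hij
    have h1 := (hZ _ _).1 hi
    have h2 := (hZ _ _).1 hj
    have e1 : i = 1 := by omega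
    have e2 : j = 2 := by omega
    subst e1 e2
    have : g k 1 < g k 2 := by
      fin_cases k
      · exact ha
      · exact hb
      · exact hc
    show ((g k 1 : ℤ) : ℝ) < ((g k 2 : ℤ) : ℝ)
    exact_mod_cast this
  · intro k l i j hkl hi hj
    have := key k l i j hkl hi hj
    constructor
    · intro h
      have := this.1 h
      show ((g k i : ℤ) : ℝ) + ((g l j : ℤ) : ℝ) ≤ 0
      exact_mod_cast this
    · intro h
      have := this.2 h
      show (0 : ℝ) ≤ ((g k i : ℤ) : ℝ) + ((g l j : ℤ) : ℝ)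
      exact_mod_cast this

end Pool.Agent.U892.Theta
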