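import Pool.Agent.U892.Theta.Verify
import Pool.Agent.U892.Theta.Order

set_option autoImplicit false
set_option linter.unusedSectionVars false
open SimpleGraph Finset

namespace Pool.Agent.U892.Theta

variable {len : Fin 3 → ℕ}

open Classical in
/-- position of a vertex of the left zone -/
noncomputable def rhoL (P : PathSystem (thetaGraph len)) (k : Fin 3) (i : ℕ) : ℕ :=
  i + ((range (len k)).filter (fun j => 0 < j ∧ ZR P k j ∧ Run P k i j)).card

open Classical in
/-- relative position of a vertex of the right zone -/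
noncomputable def rhoR (P : PathSystem (thetaGraph len)) (k : Fin 3) (j : ℕ) : ℕ :=
  ((range (len k)).filter (fun j' => 0 < j' ∧ j' < j ∧ ZR P k j')).card +
    ((range (len k)).filter (fun i => 0 < i ∧ ZL P k i ∧ ¬ Run P k i j)).card

section

variable {P : PathSystem (thetaGraph len)}

lemma rhoL_lt (hP : P.Consistent) {k : Fin 3} {i i' : ℕ} (hi' : i' < len k) (h : i < i')
    (hz : ZL P k i') : rhoL P k i < rhoL P k i' := by
  classical
  unfold rhoL
  apply Nat.add_lt_add_of_lt_of_le h
  apply card_le_card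
  intro x hx
  simp only [mem_filter, mem_range] at hx ⊢
  exact ⟨hx.1, hx.2.1, hx.2.2.1, hx.2.2.2.mono_left h.le⟩

lemma rhoR_lt (hP : P.Consistent) {k : Fin 3} {j j' : ℕ} (hj0 : 0 < j) (hj' : j' < len k)
    (h : j < j') (hz : ZR P k j) : rhoR P k j < rhoR P k j' := by
  classical
  unfold rhoR
  apply Nat.add_lt_add_of_lt_of_le
  · apply card_lt_card
    rw [ssubset_iff_of_subset]
    · exact ⟨j, by simp only [mem_filter, mem_range]; exact ⟨by omega, hj0, h, hz⟩, by simp⟩
    · intro x hx
      simp only [mem_filter, mem_range] at hx ⊢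
      exact ⟨hx.1, hx.2.1, by omega, hx.2.2.2⟩
  · apply card_le_card
    intro x hx
    simp only [mem_filter, mem_range] at hx ⊢
    exact ⟨hx.1, hx.2.1, hx.2.2.1, fun hr => hx.2.2.2 (hr.mono_right hP h.le)⟩

lemma rho_le_of_run (hP : P.Consistent) {k : Fin 3} {i j : ℕ} (hi0 : 0 < i) (hi : i < len k)
    (hj0 : 0 < j) (hj : j < len k) (hzi : ZL P k i) (hzj : ZR P k j) (hr : Run P k i j) :
    rhoR P k j ≤ rhoL P k i := by
  classical
  unfold rhoR rhoL
  have h1 : ((range (len k)).filter (fun j' => 0 < j' ∧ j' < j ∧ ZR P k j')).card ≤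
      ((range (len k)).filter (fun j => 0 < j ∧ ZR P k j ∧ Run P k i j)).card := by
    apply card_le_card
    intro x hx
    simp only [mem_filter, mem_range] at hx ⊢
    exact ⟨hx.1, hx.2.1, hx.2.2.2, hr.mono_right hP hx.2.2.1.le⟩
  have h2 : ((range (len k)).filter (fun i => 0 < i ∧ ZL P k i ∧ ¬ Run P k i j)).card ≤ i := by
    have : ((range (len k)).filter (fun i => 0 < i ∧ ZL P k i ∧ ¬ Run P k i j)) ⊆ range i := by
      intro x hx
      simp only [mem_filter, mem_range] at hx ⊢
      by_contra hc
      exact hx.2.2.2 (hr.mono_left (by omega))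
    have := card_le_card this
    rwa [card_range] at this
  omega

lemma rho_le_of_not_run (hP : P.Consistent) {k : Fin 3} {i j : ℕ} (hi0 : 0 < i) (hi : i < len k)
    (hj0 : 0 < j) (hj : j < len k) (hzi : ZL P k i) (hzj : ZR P k j) (hr : ¬ Run P k i j) :
    rhoL P k i ≤ rhoR P k j := by
  classical
  unfold rhoR rhoL
  have h1 : ((range (len k)).filter (fun j => 0 < j ∧ ZR P k j ∧ Run P k i j)).card ≤
      ((range (len k)).filter (fun j' => 0 < j' ∧ j' < j ∧ ZR P k j')).card := by
    apply card_le_card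
    intro x hx
    simp only [mem_filter, mem_range] at hx ⊢
    refine ⟨hx.1, hx.2.1, ?_, hx.2.2.1⟩
    by_contra hc
    exact hr (hx.2.2.2.mono_right hP (by omega))
  have h2 : i ≤ ((range (len k)).filter (fun i => 0 < i ∧ ZL P k i ∧ ¬ Run P k i j)).card := by
    have : (Icc 1 i) ⊆ ((range (len k)).filter (fun i => 0 < i ∧ ZL P k i ∧ ¬ Run P k i j)) := by
      intro x hx
      simp only [mem_filter, mem_range, mem_Icc] at hx ⊢
      exact ⟨by omega, by omega, hzi.down hP hi (by omega) hx.2,
        fun hr' => hr (hr'.mono_left hx.2)⟩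
    have := card_le_card this
    rwa [Nat.card_Icc, Nat.add_sub_cancel] at this
  omega

lemma rhoL_le {k : Fin 3} {i : ℕ} (hi : i < len k) : rhoL P k i ≤ 2 * len k := by
  classical
  unfold rhoL
  have := card_filter_le (range (len k)) (fun j => 0 < j ∧ ZR P k j ∧ Run P k i j)
  rw [card_range] at this
  omega

lemma rhoR_lt' {k : Fin 3} {j : ℕ} (hj : j < len k) : rhoR P k j < 2 * len k := by
  classical
  unfold rhoR
  have h1 := card_filter_le (range (len k)) (fun i => 0 < i ∧ ZL P k i ∧ ¬ Run P k i j)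
  have h2 : ((range (len k)).filter (fun j' => 0 < j' ∧ j' < j ∧ ZR P k j')).card ≤ j := by
    have : ((range (len k)).filter (fun j' => 0 < j' ∧ j' < j ∧ ZR P k j')) ⊆ range j := by
      intro x hx
      simp only [mem_filter, mem_range] at hx ⊢
      exact hx.2.2.1
    have := card_le_card this
    rwa [card_range] at this
  rw [card_range] at h1
  omega

open Classical in
/-- the positions -/
noncomputable def posOf (P : PathSystem (thetaGraph len)) (k0 : Fin 3) (h : ℝ)
    (f : Fin 3 → ℕ → ℝ) (k : Fin 3) (i : ℕ) : ℝ :=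
  if i = 0 then 0
  else if len k ≤ i then 2 * h + 2 * (if k = k0 then 0 else 2 * (len k : ℝ))
  else if ZL P k i then rhoL P k i
  else if ZR P k i then 2 * h + (if k = k0 then 0 else 2 * (len k : ℝ)) + rhoR P k i
  else h + (if k = k0 then 0 else 2 * (len k : ℝ)) + f k i

/-- the middle zone -/
def Zm (P : PathSystem (thetaGraph len)) (k : Fin 3) (i : ℕ) : Prop :=
  0 < i ∧ i < len k ∧ ¬ ZL P k i ∧ ¬ ZR P k i

theorem good_of_mid (hlen : ∀ k, 2 ≤ len k) (hP : P.Consistent) {k0 : Fin 3}
    (hrun : Run P k0 0 (len k0)) {h : ℝ} {f : Fin 3 → ℕ → ℝ} (hh : 0 < h)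
    (hf : ∀ k i, Zm P k i → |f k i| < h)
    (hmono : ∀ k i j, Zm P k i → Zm P k j → i < j → f k i < f k j)
    (hcross : ∀ k l i j, k ≠ l → Zm P k i → Zm P l j →
        (P.Mem Vertex.s (node len k i) (node len l j) → f k i + f l j ≤ 0) ∧
        (¬ P.Mem Vertex.s (node len k i) (node len l j) → 0 ≤ f k i + f l j)) :
    Good P k0 (posOf P k0 h f) := by
  classical
  -- notation
  let Λ : Fin 3 → ℝ := fun k => if k = k0 then 0 else 2 * (len k : ℝ)
  have hΛ0 : ∀ k, 0 ≤ Λ k := by
    intro k; simp only [Λ]; split_ifs <;> positivity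
  have e0 : ∀ k, posOf P k0 h f k 0 = 0 := fun k => by simp [posOf]
  have e1 : ∀ k, posOf P k0 h f k (len k) = 2 * h + 2 * Λ k := by
    intro k
    have := hlen k
    simp only [posOf, Λ]
    rw [if_neg (by omega), if_pos le_rfl]
  have eL : ∀ k i, 0 < i → i < len k → ZL P k i → posOf P k0 h f k i = rhoL P k i := by
    intro k i h0 h1 hz
    simp only [posOf]
    rw [if_neg (by omega), if_neg (by omega), if_pos hz]
  have eR : ∀ k i, 0 < i → i < len k → ZR P k i →
      posOf P k0 h f k i = 2 * h + Λ k + rhoR P k i := by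
    intro k i h0 h1 hz
    simp only [posOf, Λ]
    rw [if_neg (by omega), if_neg (by omega), if_neg (fun h' => not_zl_zr hP h' hz), if_pos hz]
  have eM : ∀ k i, 0 < i → i < len k → ¬ ZL P k i → ¬ ZR P k i →
      posOf P k0 h f k i = h + Λ k + f k i := by
    intro k i h0 h1 hz hz'
    simp only [posOf, Λ]
    rw [if_neg (by omega), if_neg (by omega), if_neg hz, if_neg hz']
  have hk0 : Λ k0 = 0 := by simp [Λ]
  have hα : posOf P k0 h f k0 (len k0) = 2 * h := by rw [e1, hk0]; ring
  have hΛ : ∀ k i, 0 < i → i < len k → (ZL P k i ∨ ZR P k i) → Λ k = 2 * (len k : ℝ) := by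
    intro k i h0 h1 hz
    have : k ≠ k0 := by
      rintro rfl
      have := central_zone hP hrun h0 h1
      rcases hz with hz | hz
      · exact this.1 hz
      · exact this.2 hz
    simp only [Λ]
    rw [if_neg this]
  have bL : ∀ k i, 0 < i → i < len k → ZL P k i → (rhoL P k i : ℝ) ≤ Λ k := by
    intro k i h0 h1 hz
    rw [hΛ k i h0 h1 (Or.inl hz)]
    exact_mod_cast rhoL_le (P := P) h1
  have bL0 : ∀ k i, 0 < i → (0 : ℝ) < (rhoL P k i : ℝ) := by
    intro k i h0
    have : 0 < rhoL P k i := by unfold rhoL; omega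
    exact_mod_cast this
  have bR : ∀ k i, 0 < i → i < len k → ZR P k i → (rhoR P k i : ℝ) < Λ k := by
    intro k i h0 h1 hz
    rw [hΛ k i h0 h1 (Or.inr hz)]
    exact_mod_cast rhoR_lt' (P := P) h1
  have bR0 : ∀ k i, (0 : ℝ) ≤ (rhoR P k i : ℝ) := fun k i => Nat.cast_nonneg _
  have bM : ∀ k i, 0 < i → i < len k → ¬ ZL P k i → ¬ ZR P k i → -h < f k i ∧ f k i < h :=
    fun k i h0 h1 hz hz' => abs_lt.1 (hf k i ⟨h0, h1, hz, hz'⟩)
  refine ⟨?_, e0, hrun, ?_, ?_, ?_, ?_, ?_, ?_, ?_⟩
  · -- step
    intro k i hi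
    have hL := hΛ0 k
    have hk := hlen k
    rcases Nat.eq_zero_or_pos i with h0 | h0
    · subst h0
      rw [e0]
      show 0 < posOf P k0 h f k 1
      by_cases z : ZL P k 1
      · rw [eL k 1 Nat.one_pos (by omega) z]
        exact bL0 k 1 Nat.one_pos
      by_cases z' : ZR P k 1
      · rw [eR k 1 Nat.one_pos (by omega) z']
        have := bR0 k 1
        linarith
      · rw [eM k 1 Nat.one_pos (by omega) z z']
        have := bM k 1 Nat.one_pos (by omega) z z'
        linarith
    rcases Nat.lt_or_ge (i + 1) (len k) with h1 | h1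
    · by_cases z1 : ZL P k (i + 1)
      · have z : ZL P k i := z1.down hP h1 h0 (by omega)
        rw [eL k i h0 hi z, eL k (i + 1) (by omega) h1 z1]
        exact_mod_cast rhoL_lt hP h1 (Nat.lt_succ_self i) z1
      by_cases z : ZL P k i
      · rw [eL k i h0 hi z]
        have b1 := bL k i h0 hi z
        by_cases z2 : ZR P k (i + 1)
        · rw [eR k (i + 1) (by omega) h1 z2]
          have := bR0 k (i + 1)
          linarith
        · rw [eM k (i + 1) (by omega) h1 z1 z2]
          have := bM k (i + 1) (by omega) h1 z1 z2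
          linarith
      by_cases z3 : ZR P k i
      · have z4 : ZR P k (i + 1) := z3.up hP h0 (by omega) h1
        rw [eR k i h0 hi z3, eR k (i + 1) (by omega) h1 z4]
        have : (rhoR P k i : ℝ) < rhoR P k (i + 1) := by
          exact_mod_cast rhoR_lt hP h0 h1 (Nat.lt_succ_self i) z3
        linarith
      · rw [eM k i h0 hi z z3]
        have b1 := bM k i h0 hi z z3
        by_cases z2 : ZR P k (i + 1)
        · rw [eR k (i + 1) (by omega) h1 z2]
          have := bR0 k (i + 1)
          linarith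
        · rw [eM k (i + 1) (by omega) h1 z1 z2]
          have := hmono k i (i + 1) ⟨h0, hi, z, z3⟩ ⟨by omega, h1, z1, z2⟩ (by omega)
          linarith
    · have e : i + 1 = len k := by omega
      rw [e, e1]
      by_cases z : ZL P k i
      · rw [eL k i h0 hi z]
        have b1 := bL k i h0 hi z
        linarith
      by_cases z3 : ZR P k i
      · rw [eR k i h0 hi z3]
        have := bR k i h0 hi z3
        linarith
      · rw [eM k i h0 hi z z3]
        have b1 := bM k i h0 hi z z3
        linarith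
  · intro k
    rw [hα, e1]
    have := hΛ0 k
    linarith
  · intro k i h0 h1 z
    rw [hα, e1, eL k i h0 h1 z]
    have := bL k i h0 h1 z
    linarith
  · intro k i h0 h1 z
    rw [hα, e1, eR k i h0 h1 z]
    have := bR0 k i
    linarith
  · intro k i h0 h1 z
    rw [hα, e1]
    by_cases z' : ZR P k i
    · rw [eR k i h0 h1 z']
      have := bR0 k i
      linarith
    · rw [eM k i h0 h1 z z']
      have := bM k i h0 h1 z z'
      linarith
  · intro k i h0 h1 z
    rw [hα, e1]
    have hL := hΛ0 k
    by_cases z' : ZL P k i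
    · rw [eL k i h0 h1 z']
      have := bL k i h0 h1 z'
      linarith
    · rw [eM k i h0 h1 z' z]
      have := bM k i h0 h1 z' z
      linarith
  · intro k l i j hkl h0 h1 h2 h3 z1 z2 z3 z4
    have := hcross k l i j hkl ⟨h0, h1, z1, z2⟩ ⟨h2, h3, z3, z4⟩
    rw [e1, e1, eM k i h0 h1 z1 z2, eM l j h2 h3 z3 z4]
    exact ⟨fun hs => by linarith [this.1 hs], fun hs => by linarith [this.2 hs]⟩
  · intro k i j h0 h1 h2 h3 z1 z2
    rw [hα, e1, eL k i h0 h1 z1, eR k j h2 h3 z2]
    constructor
    · intro hr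
      have : (rhoR P k j : ℝ) ≤ rhoL P k i := by
        exact_mod_cast rho_le_of_run hP h0 h1 h2 h3 z1 z2 hr
      linarith
    · intro hr
      have : (rhoL P k i : ℝ) ≤ rhoR P k j := by
        exact_mod_cast rho_le_of_not_run hP h0 h1 h2 h3 z1 z2 hr
      linarith

/-- **Metrizability.** -/
theorem metrizable_of (hlen : ∀ k, 2 ≤ len k) (hcase : (∃ k, len k = 2) ∨ ∀ k, len k = 3) :
    Metrizable (thetaGraph len) := by
  classical
  intro P hP
  obtain ⟨k0, hrun⟩ := exists_central hP hlen
  have hsymm : ∀ k i l j, P.Mem Vertex.s (node len k i) (node len l j) ↔ P.Mem Vertex.s (node len l j) (node len k i) :=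
    fun k i l j => P.mem_comm
  have hdown : ∀ k l i i' j, k ≠ l → Zm P k i → Zm P k i' → Zm P l j → i' ≤ i →
      P.Mem Vertex.s (node len k i) (node len l j) → P.Mem Vertex.s (node len k i') (node len l j) := by
    intro k l i i' j _ hi hi' _ hle hs
    exact mem_s_down hP hi.2.1 hi.2.2.2 hi'.1 hle hs
  have hmid : ∃ (h : ℝ) (f : Fin 3 → ℕ → ℝ), 0 < h ∧ (∀ k i, Zm P k i → |f k i| < h) ∧
      (∀ k i j, Zm P k i → Zm P k j → i < j → f k i < f k j) ∧
      ∀ k l i j, k ≠ l → Zm P k i → Zm P l j →
        (P.Mem Vertex.s (node len k i) (node len l j) → f k i + f l j ≤ 0) ∧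
        (¬ P.Mem Vertex.s (node len k i) (node len l j) → 0 ≤ f k i + f l j) := by
    by_cases hone : ∃ k1, ∀ i j, Zm P k1 i → Zm P k1 j → i = j
    · refine mid_exists (len 0 + len 1 + len 2) (Zm P)
        (fun k i l j => P.Mem Vertex.s (node len k i) (node len l j)) ?_ hsymm hdown hone
      intro k i hi
      have := hi.2.1
      fin_cases k <;> simp at this <;> omega
    · have h3 : ∀ k, len k = 3 := by
        rcases hcase with ⟨k, hk⟩ | h
        · exfalso
          apply hone
          refine ⟨k, ?_⟩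
          intro i j hi hj
          have h1 := hi.1
          have h2 := hi.2.1
          have h3 := hj.1
          have h4 := hj.2.1
          omega
        · exact h
      push Not at hone
      refine mid_exists_two (Zm P)
        (fun k i l j => P.Mem Vertex.s (node len k i) (node len l j)) ?_ hsymm hdown
      intro k i
      obtain ⟨a, b, ha, hb, hab⟩ := hone k
      have hk := h3 k
      have h1 := ha.1
      have h2 := ha.2.1
      have h5 := hb.1
      have h6 := hb.2.1
      have both : Zm P k 1 ∧ Zm P k 2 := by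
        have : (a = 1 ∧ b = 2) ∨ (a = 2 ∧ b = 1) := by omega
        rcases this with ⟨rfl, rfl⟩ | ⟨rfl, rfl⟩
        · exact ⟨ha, hb⟩
        · exact ⟨hb, ha⟩
      constructor
      · intro hi
        have h7 := hi.1
        have h8 := hi.2.1
        omega
      · rintro (rfl | rfl)
        · exact both.1
        · exact both.2
  obtain ⟨h, f, hh, hf, hmono, hcross⟩ := hmid
  exact ⟨_, (good_of_mid hlen hP hrun hh hf hmono hcross).induces hlen hP⟩

end

end Pool.Agent.U892.Theta
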