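import Pool.Agent.U892.Theta.Graph

set_option autoImplicit false
set_option linter.unusedSectionVars false
set_option linter.deprecated false
open SimpleGraph

namespace Pool.Agent.U892.Theta

variable {len : Fin 3 → ℕ}

/-- an edge determines its branch and its place -/
lemma edge_unique (hlen : ∀ k, 2 ≤ len k) {k l : Fin 3} {i j : ℕ} (hi : i < len k)
    (hj : j < len l) (h : s(node len k i, node len k (i + 1)) = s(node len l j, node len l (j + 1))) : k = l ∧ i = j := by
  have hk := hlen k
  have hl := hlen l
  rcases Sym2.eq_iff.1 h with ⟨h1, h2⟩ | ⟨h1, h2⟩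
  · rcases Nat.eq_zero_or_pos i with h0 | h0
    · subst h0
      obtain ⟨e1, e2⟩ := node_inj (i := 0 + 1) (by omega) (by omega) h2
      exact ⟨e1, by omega⟩
    · exact node_inj h0 hi h1
  · exfalso
    rcases Nat.eq_zero_or_pos i with h0 | h0
    · subst h0
      rw [node_zero] at h1
      exact node_ne_s (Nat.succ_pos j) h1.symm
    · obtain ⟨e1, e2⟩ := node_inj h0 hi h1
      subst e1
      rcases Nat.lt_or_ge (i + 1) (len k) with h3 | h3
      · have := (node_inj (Nat.succ_pos i) h3 h2).2
        omega
      · have e : i + 1 = len k := by omega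
        rw [e, node_len (by omega)] at h2
        exact node_ne_t hj h2.symm

open Classical in
/-- edge weights from positions of the vertices on the branches -/
noncomputable def wOf (pos : Fin 3 → ℕ → ℝ) (e : Sym2 (Vertex len)) : ℝ :=
  if h : ∃ p : Fin 3 × ℕ, p.2 < len p.1 ∧ e = s(node len p.1 p.2, node len p.1 (p.2 + 1)) then
    pos h.choose.1 (h.choose.2 + 1) - pos h.choose.1 h.choose.2
  else 1

lemma wOf_edge (hlen : ∀ k, 2 ≤ len k) (pos : Fin 3 → ℕ → ℝ) {k : Fin 3} {i : ℕ}
    (hi : i < len k) : wOf pos s(node len k i, node len k (i + 1)) = pos k (i + 1) - pos k i := by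
  have h : ∃ p : Fin 3 × ℕ, p.2 < len p.1 ∧
      s(node len k i, node len k (i + 1)) = s(node len p.1 p.2, node len p.1 (p.2 + 1)) := ⟨(k, i), hi, rfl⟩
  unfold wOf
  rw [dif_pos h]
  obtain ⟨h1, h2⟩ := h.choose_spec
  obtain ⟨e1, e2⟩ := edge_unique hlen hi h1 h2
  rw [← e1, ← e2]

/-- positions with the properties that are needed -/
structure Good (P : PathSystem (thetaGraph len)) (k0 : Fin 3) (pos : Fin 3 → ℕ → ℝ) : Prop where
  step : ∀ k i, i < len k → pos k i < pos k (i + 1)
  zero : ∀ k, pos k 0 = 0
  run0 : Run P k0 0 (len k0)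
  le : ∀ k, pos k0 (len k0) ≤ pos k (len k)
  zl : ∀ k i, 0 < i → i < len k → ZL P k i → 2 * pos k i ≤ pos k (len k) - pos k0 (len k0)
  zr : ∀ k i, 0 < i → i < len k → ZR P k i → pos k (len k) + pos k0 (len k0) ≤ 2 * pos k i
  nzl : ∀ k i, 0 < i → i < len k → ¬ ZL P k i → pos k (len k) - pos k0 (len k0) ≤ 2 * pos k i
  nzr : ∀ k i, 0 < i → i < len k → ¬ ZR P k i → 2 * pos k i ≤ pos k (len k) + pos k0 (len k0)
  cross : ∀ k l i j, k ≠ l → 0 < i → i < len k → 0 < j → j < len l →
    ¬ ZL P k i → ¬ ZR P k i → ¬ ZL P l j → ¬ ZR P l j →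
    (P.Mem Vertex.s (node len k i) (node len l j) → 2 * pos k i + 2 * pos l j ≤ pos k (len k) + pos l (len l)) ∧
    (¬ P.Mem Vertex.s (node len k i) (node len l j) → pos k (len k) + pos l (len l) ≤ 2 * pos k i + 2 * pos l j)
  outer : ∀ k i j, 0 < i → i < len k → 0 < j → j < len k → ZL P k i → ZR P k j →
    (Run P k i j → 2 * (pos k j - pos k i) ≤ pos k (len k) + pos k0 (len k0)) ∧
    (¬ Run P k i j → pos k (len k) + pos k0 (len k0) ≤ 2 * (pos k j - pos k i))

section verify

variable {P : PathSystem (thetaGraph len)} {k0 : Fin 3} {pos : Fin 3 → ℕ → ℝ}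

lemma Good.mono (h : Good P k0 pos) {k : Fin 3} {i j : ℕ} (hij : i ≤ j) (hj : j ≤ len k) :
    pos k i ≤ pos k j := by
  induction j, hij using Nat.le_induction with
  | base => exact le_rfl
  | succ j hij ih => exact (ih (by omega)).trans (h.step k j (by omega)).le

lemma Good.nonneg (h : Good P k0 pos) {k : Fin 3} {i : ℕ} (hi : i ≤ len k) : 0 ≤ pos k i := by
  rw [← h.zero k]; exact h.mono (Nat.zero_le i) hi

lemma run_W (hlen : ∀ k, 2 ≤ len k) (hP : P.Consistent) {k : Fin 3} {i j : ℕ}
    (hr : Run P k i j) (hij : i ≤ j) (hj : j ≤ len k) :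
    P.W (wOf pos) (node len k i) (node len k j) = pos k j - pos k i := by
  obtain ⟨d, rfl⟩ := Nat.exists_eq_add_of_le hij
  clear hij
  induction d generalizing i with
  | zero => rw [Nat.add_zero, W_self]; ring
  | succ d ih =>
    obtain ⟨h1, h2⟩ := hr i le_rfl (by omega)
    have e : i + (d + 1) = i + 1 + d := by omega
    rw [W_add hP h2, W_edge h1, wOf_edge hlen pos (by omega)]
    rw [e]
    rw [e] at hr hj
    rw [ih (hr.mono_left (by omega)) hj]
    ring

lemma W_st (hlen : ∀ k, 2 ≤ len k) (hP : P.Consistent) (h : Good P k0 pos) :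
    P.W (wOf pos) Vertex.s Vertex.t = pos k0 (len k0) := by
  have := run_W (pos := pos) hlen hP h.run0 (Nat.zero_le _) le_rfl
  rw [node_zero, node_len (by have := hlen k0; omega), h.zero] at this
  rw [this]; ring

lemma W_s (hlen : ∀ k, 2 ≤ len k) (hP : P.Consistent) (h : Good P k0 pos) {k : Fin 3} {i : ℕ}
    (hi : i ≤ len k) : P.W (wOf pos) Vertex.s (node len k i) =
      min (pos k i) (pos k0 (len k0) + pos k (len k) - pos k i) := by
  have hk := hlen k
  have hle := h.le k
  have hnn : 0 ≤ pos k0 (len k0) := h.nonneg le_rfl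
  rcases Nat.eq_zero_or_pos i with h0 | h0
  · subst h0
    rw [node_zero, W_self, h.zero, min_eq_left]
    linarith
  rcases Nat.lt_or_ge i (len k) with h1 | h1
  · by_cases hz : ZR P k i
    · have h2 := h.zr k i h0 h1 hz
      rw [W_add hP hz, W_st hlen hP h]
      have h3 := run_W (pos := pos) hlen hP
        (run_of_not_zl hP h0 h1 (fun h' => not_zl_zr hP h' hz)) h1.le le_rfl
      rw [node_len (by omega), W_comm] at h3
      rw [h3, min_eq_right (by linarith)]
      ring
    · have h2 := h.nzr k i h0 h1 hz
      have h3 := run_W (pos := pos) hlen hP (run_of_not_zr hP h0 h1 hz) (Nat.zero_le i) h1.le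
      rw [node_zero, h.zero] at h3
      rw [h3, min_eq_left (by linarith)]
      ring
  · have e : i = len k := le_antisymm hi h1
    subst e
    rw [node_len (by omega), W_st hlen hP h, min_eq_right (by linarith)]
    ring

lemma W_t (hlen : ∀ k, 2 ≤ len k) (hP : P.Consistent) (h : Good P k0 pos) {k : Fin 3} {i : ℕ}
    (hi : i ≤ len k) : P.W (wOf pos) Vertex.t (node len k i) =
      min (pos k (len k) - pos k i) (pos k0 (len k0) + pos k i) := by
  have hk := hlen k
  have hle := h.le k
  have hnn : 0 ≤ pos k0 (len k0) := h.nonneg le_rfl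
  rcases Nat.eq_zero_or_pos i with h0 | h0
  · subst h0
    rw [node_zero, W_comm, W_st hlen hP h, h.zero, min_eq_right (by linarith)]
    ring
  rcases Nat.lt_or_ge i (len k) with h1 | h1
  · by_cases hz : ZL P k i
    · have h2 := h.zl k i h0 h1 hz
      rw [W_add hP hz, W_comm, W_st hlen hP h]
      have h3 := run_W (pos := pos) hlen hP
        (run_of_not_zr hP h0 h1 (not_zl_zr hP hz)) (Nat.zero_le i) h1.le
      rw [node_zero, h.zero] at h3
      rw [h3, min_eq_right (by linarith)]
      ring
    · have h2 := h.nzl k i h0 h1 hz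
      have h3 := run_W (pos := pos) hlen hP (run_of_not_zl hP h0 h1 hz) h1.le le_rfl
      rw [node_len (by omega), W_comm] at h3
      rw [h3, min_eq_left (by linarith)]
  · have e : i = len k := le_antisymm hi h1
    subst e
    rw [node_len (by omega), W_self, sub_self, min_eq_left]
    linarith [h.nonneg (k := k) le_rfl]

/-- along a run between inner vertices -/
lemma run_half (h : Good P k0 pos) {k : Fin 3}
    {i j : ℕ} (h0 : 0 < i) (hij : i < j) (hj : j < len k) (hr : Run P k i j) :
    2 * (pos k j - pos k i) ≤ pos k (len k) + pos k0 (len k0) := by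
  by_cases hl : ZL P k i
  · by_cases hr' : ZR P k j
    · exact (h.outer k i j h0 (by omega) (by omega) hj hl hr').1 hr
    · have := h.nzr k j (by omega) hj hr'
      have := h.nonneg (k := k) (i := i) (by omega)
      linarith
  · have h1 := h.nzl k i h0 (by omega) hl
    have h2 := h.mono (k := k) hj.le le_rfl
    linarith

/-- in the other case the path runs through both branch vertices -/
lemma around (hP : P.Consistent) {k : Fin 3} {i j : ℕ} (h0 : 0 < i) (hij : i < j)
    (hj : j < len k) (hs : P.Mem Vertex.s (node len k i) (node len k j)) (ht : P.Mem Vertex.t (node len k i) (node len k j))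
    (r1 : Run P k 0 i) (r2 : Run P k j (len k)) : ZL P k i ∧ ZR P k j := by
  constructor
  · rcases (PathSystem.mem_split hP ht).1 hs with h1 | h1
    · exact P.mem_comm.1 h1
    · exfalso
      have h2 := (r2.mem_iff hP hj.le (x := Vertex.s)).1 (by
        rw [node_len (by omega)]; exact P.mem_comm.1 h1)
      obtain ⟨l, hl, _, h3⟩ := h2
      exact node_ne_s (by omega) h3.symm
  · rcases (PathSystem.mem_split hP hs).1 ht with h1 | h1
    · exfalso
      have h2 := (r1.mem_iff hP (Nat.zero_le i) (x := Vertex.t)).1 (by
        rw [node_zero]; exact P.mem_comm.1 h1)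
      obtain ⟨l, _, hl, h3⟩ := h2
      exact node_ne_t (by omega) h3.symm
    · exact h1

/-- (II) along a branch -/
lemma W_branch (hlen : ∀ k, 2 ≤ len k) (hP : P.Consistent) (h : Good P k0 pos) {k : Fin 3}
    {i j : ℕ} (hij : i ≤ j) (hj : j ≤ len k) :
    P.W (wOf pos) (node len k i) (node len k j) ≤ pos k j - pos k i := by
  have hk := hlen k
  rcases Nat.eq_zero_or_pos i with h0 | h0
  · subst h0
    rw [node_zero, W_s hlen hP h hj, h.zero, sub_zero]
    exact min_le_left _ _
  rcases Nat.lt_or_ge j (len k) with h1 | h1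
  · rcases Nat.lt_or_ge i j with h2 | h2
    · rcases same_branch hP h0 h2 h1 with hr | ⟨hs, ht, r1, r2⟩
      · exact (run_W hlen hP hr hij hj).le
      · obtain ⟨z1, z2⟩ := around hP h0 h2 h1 hs ht r1 r2
        have hnr : ¬ Run P k i j := fun hr => hr.not_s hP hij h0 hs
        have h3 := (h.outer k i j h0 (by omega) (by omega) h1 z1 z2).2 hnr
        rw [W_add hP hs, W_comm, W_s hlen hP h (by omega : i ≤ len k), W_s hlen hP h hj]
        have h4 := min_le_left (pos k i) (pos k0 (len k0) + pos k (len k) - pos k i)
        have h5 := min_le_right (pos k j) (pos k0 (len k0) + pos k (len k) - pos k j)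
        linarith
    · have e : i = j := le_antisymm hij h2
      subst e
      rw [W_self, sub_self]
  · have e : j = len k := le_antisymm hj h1
    subst e
    rw [W_comm, node_len (by omega), W_t hlen hP h hij]
    exact min_le_left _ _

lemma W_branch_abs (hlen : ∀ k, 2 ≤ len k) (hP : P.Consistent) (h : Good P k0 pos) {k : Fin 3}
    {i j : ℕ} (hi : i ≤ len k) (hj : j ≤ len k) :
    P.W (wOf pos) (node len k i) (node len k j) ≤ |pos k j - pos k i| := by
  rcases le_total i j with h1 | h1
  · exact (W_branch hlen hP h h1 hj).trans (le_abs_self _)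
  · rw [W_comm, abs_sub_comm]
    exact (W_branch hlen hP h h1 hi).trans (le_abs_self _)

/-- (I_s) for inner vertices of one branch -/
lemma tri_s_same (hlen : ∀ k, 2 ≤ len k) (hP : P.Consistent) (h : Good P k0 pos) {k : Fin 3}
    {i j : ℕ} (h0 : 0 < i) (hij : i < j) (hj : j < len k) :
    P.W (wOf pos) (node len k i) (node len k j) ≤
      P.W (wOf pos) (node len k i) Vertex.s + P.W (wOf pos) Vertex.s (node len k j) ∧
    P.W (wOf pos) (node len k i) (node len k j) ≤
      P.W (wOf pos) (node len k i) Vertex.t + P.W (wOf pos) Vertex.t (node len k j) := by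
  rcases same_branch hP h0 hij hj with hr | ⟨hs, ht, _, _⟩
  · have h1 := run_W (pos := pos) hlen hP hr hij.le hj.le
    have h2 := run_half h h0 hij hj hr
    have h3 := h.nonneg (k := k) (i := i) (by omega)
    have h4 := h.nonneg (k := k0) le_rfl
    have h5 := h.mono (k := k) hj.le le_rfl
    have h6 := h.mono (k := k) hij.le hj.le
    rw [h1, W_comm _ Vertex.s, W_comm _ Vertex.t, W_s hlen hP h (by omega : i ≤ len k),
      W_s hlen hP h hj.le, W_t hlen hP h (by omega : i ≤ len k), W_t hlen hP h hj.le]
    constructor
    · rcases min_choice (pos k i) (pos k0 (len k0) + pos k (len k) - pos k i) with e1 | e1 <;>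
      rcases min_choice (pos k j) (pos k0 (len k0) + pos k (len k) - pos k j) with e2 | e2 <;>
      rw [e1, e2] <;> linarith
    · rcases min_choice (pos k (len k) - pos k i) (pos k0 (len k0) + pos k i) with e1 | e1 <;>
      rcases min_choice (pos k (len k) - pos k j) (pos k0 (len k0) + pos k j) with e2 | e2 <;>
      rw [e1, e2] <;> linarith
  · exact ⟨(W_add hP hs).le, (W_add hP ht).le⟩

/-- comparison of the distances from `s` and from `t` -/
lemma W_st_le (hlen : ∀ k, 2 ≤ len k) (hP : P.Consistent) (h : Good P k0 pos) (v : Vertex len) :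
    P.W (wOf pos) Vertex.s v ≤ P.W (wOf pos) Vertex.s Vertex.t + P.W (wOf pos) Vertex.t v ∧
    P.W (wOf pos) Vertex.t v ≤ P.W (wOf pos) Vertex.t Vertex.s + P.W (wOf pos) Vertex.s v := by
  have h4 := h.nonneg (k := k0) le_rfl
  have hst := W_st hlen hP h
  have hts : P.W (wOf pos) Vertex.t Vertex.s = pos k0 (len k0) := by rw [W_comm, hst]
  rcases vertex_cases v with rfl | rfl | ⟨k, i, h0, h1, rfl⟩
  · rw [W_self, hst, hts]; constructor <;> linarith
  · rw [W_self, hst, hts]; constructor <;> linarith
  · rw [hst, hts, W_s hlen hP h h1.le, W_t hlen hP h h1.le]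
    have h5 := h.mono (k := k) h1.le le_rfl
    have h6 := h.nonneg (k := k) (i := i) (by omega)
    have m1 := min_le_left (pos k i) (pos k0 (len k0) + pos k (len k) - pos k i)
    have m2 := min_le_right (pos k i) (pos k0 (len k0) + pos k (len k) - pos k i)
    have m3 := min_le_left (pos k (len k) - pos k i) (pos k0 (len k0) + pos k i)
    have m4 := min_le_right (pos k (len k) - pos k i) (pos k0 (len k0) + pos k i)
    constructor
    · rcases min_choice (pos k (len k) - pos k i) (pos k0 (len k0) + pos k i) with e1 | e1 <;>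
      rw [e1] <;> linarith
    · rcases min_choice (pos k i) (pos k0 (len k0) + pos k (len k) - pos k i) with e1 | e1 <;>
      rw [e1] <;> linarith

/-- the cross case -/
lemma tri_cross (hlen : ∀ k, 2 ≤ len k) (hP : P.Consistent) (h : Good P k0 pos) {k l : Fin 3}
    (hkl : k ≠ l) {i j : ℕ} (h0 : 0 < i) (h1 : i < len k) (h2 : 0 < j) (h3 : j < len l) :
    P.W (wOf pos) (node len k i) (node len l j) ≤
      P.W (wOf pos) (node len k i) Vertex.s + P.W (wOf pos) Vertex.s (node len l j) ∧
    P.W (wOf pos) (node len k i) (node len l j) ≤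
      P.W (wOf pos) (node len k i) Vertex.t + P.W (wOf pos) Vertex.t (node len l j) := by
  have a1 := W_st_le hlen hP h (node len k i)
  have a2 := W_st_le hlen hP h (node len l j)
  have hst := W_st hlen hP h
  have hts : P.W (wOf pos) Vertex.t Vertex.s = pos k0 (len k0) := by rw [W_comm, hst]
  have c1 : P.W (wOf pos) (node len k i) Vertex.s = P.W (wOf pos) Vertex.s (node len k i) := W_comm _ _
  have c2 : P.W (wOf pos) (node len k i) Vertex.t = P.W (wOf pos) Vertex.t (node len k i) := W_comm _ _
  have e1 := W_s hlen hP h h1.le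
  have e2 := W_s hlen hP h h3.le
  have e3 := W_t hlen hP h h1.le
  have e4 := W_t hlen hP h h3.le
  by_cases hs : P.Mem Vertex.s (node len k i) (node len l j)
  · refine ⟨(W_add hP hs).le, ?_⟩
    by_cases ht : P.Mem Vertex.t (node len k i) (node len l j)
    · exact (W_add hP ht).le
    rw [W_add hP hs]
    -- neither is in the zone ZR
    have z1 : ¬ ZR P k i := fun hz => ht ((PathSystem.mem_trans' hP hs (P.mem_comm.1 hz)).1)
    have z2 : ¬ ZR P l j := fun hz => ht ((PathSystem.mem_trans hP hs hz).1)
    by_cases z3 : ZL P k i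
    · have := W_add (w := wOf pos) hP z3
      linarith
    by_cases z4 : ZL P l j
    · have := W_add (w := wOf pos) hP z4
      linarith
    have hc := (h.cross k l i j hkl h0 h1 h2 h3 z3 z1 z4 z2).1 hs
    have n1 := h.nzl k i h0 h1 z3
    have n2 := h.nzl l j h2 h3 z4
    have n3 := h.nzr k i h0 h1 z1
    have n4 := h.nzr l j h2 h3 z2
    rw [min_eq_left (by linarith)] at e1 e2 e3 e4
    linarith
  · have ht : P.Mem Vertex.t (node len k i) (node len l j) :=
      (cross_branch hP hkl h0 h1 h2 h3).resolve_left hs
    refine ⟨?_, (W_add hP ht).le⟩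
    rw [W_add hP ht]
    have z1 : ¬ ZL P k i := fun hz => hs ((PathSystem.mem_trans' hP ht (P.mem_comm.1 hz)).1)
    have z2 : ¬ ZL P l j := fun hz => hs ((PathSystem.mem_trans hP ht hz).1)
    by_cases z3 : ZR P k i
    · have := W_add (w := wOf pos) hP z3
      linarith
    by_cases z4 : ZR P l j
    · have := W_add (w := wOf pos) hP z4
      linarith
    have hc := (h.cross k l i j hkl h0 h1 h2 h3 z1 z3 z2 z4).2 hs
    have n1 := h.nzl k i h0 h1 z1
    have n2 := h.nzl l j h2 h3 z2
    have n3 := h.nzr k i h0 h1 z3
    have n4 := h.nzr l j h2 h3 z4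
    rw [min_eq_left (by linarith)] at e1 e2 e3 e4
    linarith

/-- the triangle inequality at `s` and at `t` -/
lemma tri (hlen : ∀ k, 2 ≤ len k) (hP : P.Consistent) (h : Good P k0 pos) (u v : Vertex len) :
    P.W (wOf pos) u v ≤ P.W (wOf pos) u Vertex.s + P.W (wOf pos) Vertex.s v ∧
    P.W (wOf pos) u v ≤ P.W (wOf pos) u Vertex.t + P.W (wOf pos) Vertex.t v := by
  have hst := W_st hlen hP h
  rcases vertex_cases u with rfl | rfl | ⟨k, i, h0, h1, rfl⟩
  · rw [W_self]
    exact ⟨by linarith, (W_st_le hlen hP h v).1⟩
  · rw [W_self]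
    exact ⟨(W_st_le hlen hP h v).2, by linarith⟩
  rcases vertex_cases v with rfl | rfl | ⟨l, j, h2, h3, rfl⟩
  · rw [W_self]
    have := (W_st_le hlen hP h (node len k i)).1
    rw [W_comm (node len k i) Vertex.s, W_comm (node len k i) Vertex.t, W_comm Vertex.t Vertex.s]
    exact ⟨by linarith, by linarith⟩
  · rw [W_self]
    have := (W_st_le hlen hP h (node len k i)).2
    rw [W_comm (node len k i) Vertex.s, W_comm (node len k i) Vertex.t, W_comm Vertex.s Vertex.t]
    exact ⟨by linarith, by linarith⟩
  by_cases hkl : k = l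
  · subst hkl
    rcases lt_trichotomy i j with hij | hij | hij
    · exact tri_s_same hlen hP h h0 hij h3
    · subst hij
      rw [W_self, W_comm (node len k i) Vertex.s, W_comm (node len k i) Vertex.t, W_s hlen hP h h1.le,
        W_t hlen hP h h1.le]
      have h4 := h.nonneg (k := k0) le_rfl
      have h5 := h.mono (k := k) h1.le le_rfl
      have h6 := h.nonneg (k := k) (i := i) (by omega)
      have : 0 ≤ min (pos k i) (pos k0 (len k0) + pos k (len k) - pos k i) :=
        le_min h6 (by linarith)
      have : 0 ≤ min (pos k (len k) - pos k i) (pos k0 (len k0) + pos k i) :=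
        le_min (by linarith) (by linarith)
      constructor <;> linarith
    · have := tri_s_same hlen hP h h2 hij h1
      have c1 : P.W (wOf pos) (node len k i) (node len k j) = P.W (wOf pos) (node len k j) (node len k i) := W_comm _ _
      have c2 : P.W (wOf pos) (node len k i) Vertex.s = P.W (wOf pos) Vertex.s (node len k i) := W_comm _ _
      have c3 : P.W (wOf pos) (node len k i) Vertex.t = P.W (wOf pos) Vertex.t (node len k i) := W_comm _ _
      have c4 : P.W (wOf pos) (node len k j) Vertex.s = P.W (wOf pos) Vertex.s (node len k j) := W_comm _ _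
      have c5 : P.W (wOf pos) (node len k j) Vertex.t = P.W (wOf pos) Vertex.t (node len k j) := W_comm _ _
      exact ⟨by linarith [this.1], by linarith [this.2]⟩
  · exact tri_cross hlen hP h hkl h0 h1 h2 h3

/-- Good positions give weights that induce the path system. -/
theorem Good.induces (hlen : ∀ k, 2 ≤ len k) (hP : P.Consistent) (h : Good P k0 pos) :
    (∀ e ∈ (thetaGraph len).edgeSet, 0 < wOf (len := len) pos e) ∧
      P.InducedBy (wOf (len := len) pos) := by
  constructor
  · intro e he
    induction e with
    | _ a b =>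
      rw [SimpleGraph.mem_edgeSet] at he
      obtain ⟨k, i, hi, ⟨rfl, rfl⟩ | ⟨rfl, rfl⟩⟩ := he
      · rw [wOf_edge hlen pos hi]
        have := h.step k i hi
        linarith
      · rw [Sym2.eq_swap, wOf_edge hlen pos hi]
        have := h.step k i hi
        linarith
  · apply inducedBy_of_lipschitz
    -- distances from s and t are Lipschitz
    have hk : ∀ (k : Fin 3) (i j : ℕ), i ≤ len k → j ≤ len k →
        P.W (wOf pos) Vertex.s (node len k j) ≤ P.W (wOf pos) Vertex.s (node len k i) + |pos k j - pos k i| ∧
        P.W (wOf pos) Vertex.t (node len k j) ≤ P.W (wOf pos) Vertex.t (node len k i) + |pos k j - pos k i| := by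
      intro k i j hi hj
      rw [W_s hlen hP h hi, W_s hlen hP h hj, W_t hlen hP h hi, W_t hlen hP h hj]
      have h1 := le_abs_self (pos k j - pos k i)
      have h2 := neg_abs_le (pos k j - pos k i)
      constructor
      · rcases min_choice (pos k i) (pos k0 (len k0) + pos k (len k) - pos k i) with e | e <;>
          rw [e]
        · exact (min_le_left _ _).trans (by linarith)
        · exact (min_le_right _ _).trans (by linarith)
      · rcases min_choice (pos k (len k) - pos k i) (pos k0 (len k0) + pos k i) with e | e <;>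
          rw [e]
        · exact (min_le_left _ _).trans (by linarith)
        · exact (min_le_right _ _).trans (by linarith)
    have main : ∀ (u : Vertex len) (k : Fin 3) (i j : ℕ), i ≤ len k → j ≤ len k →
        P.W (wOf pos) u (node len k j) ≤ P.W (wOf pos) u (node len k i) + |pos k j - pos k i| := by
      intro u k i j hi hj
      by_cases hs : P.Mem Vertex.s u (node len k i)
      · rw [W_add hP hs]
        have h1 := (tri hlen hP h u (node len k j)).1
        have h2 := (hk k i j hi hj).1
        linarith
      by_cases ht : P.Mem Vertex.t u (node len k i)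
      · rw [W_add hP ht]
        have h1 := (tri hlen hP h u (node len k j)).2
        have h2 := (hk k i j hi hj).2
        linarith
      -- now both are inner vertices of the same branch
      rcases vertex_cases u with rfl | rfl | ⟨l, a, h0, h1, rfl⟩
      · exact absurd (P.mem_left _ _) hs
      · exact absurd (P.mem_left _ _) ht
      have hi0 : 0 < i := by
        rcases Nat.eq_zero_or_pos i with h2 | h2
        · subst h2; rw [node_zero] at hs; exact absurd (P.mem_right _ _) hs
        · exact h2
      have hi1 : i < len k := by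
        rcases Nat.lt_or_ge i (len k) with h2 | h2
        · exact h2
        · have e : i = len k := le_antisymm hi h2
          subst e
          rw [node_len (by omega)] at ht
          exact absurd (P.mem_right _ _) ht
      have hlk : l = k := by
        by_contra hne
        rcases cross_branch hP hne h0 h1 hi0 hi1 with h2 | h2
        · exact hs h2
        · exact ht h2
      subst hlk
      have hW : P.W (wOf pos) (node len l a) (node len l i) = |pos l i - pos l a| := by
        rcases lt_trichotomy a i with h2 | h2 | h2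
        · rcases same_branch hP h0 h2 hi1 with hr | ⟨h3, _, _, _⟩
          · rw [run_W hlen hP hr h2.le hi, abs_of_nonneg]
            linarith [h.mono h2.le hi]
          · exact absurd h3 hs
        · subst h2; rw [W_self]; simp
        · rcases same_branch hP hi0 h2 h1 with hr | ⟨h3, _, _, _⟩
          · rw [W_comm, run_W hlen hP hr h2.le h1.le, abs_sub_comm, abs_of_nonneg]
            linarith [h.mono h2.le h1.le]
          · exact absurd (P.mem_comm.1 h3) hs
      have hW' := W_branch_abs hlen hP h h1.le hj
      rw [hW]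
      have : |pos l j - pos l a| ≤ |pos l i - pos l a| + |pos l j - pos l i| := by
        have := abs_add_le (pos l i - pos l a) (pos l j - pos l i)
        have e : pos l i - pos l a + (pos l j - pos l i) = pos l j - pos l a := by ring
        rw [e] at this
        exact this
      linarith
    intro u v v' hadj
    obtain ⟨k, i, hi, ⟨rfl, rfl⟩ | ⟨rfl, rfl⟩⟩ := hadj
    · have := main u k i (i + 1) hi.le hi
      rw [wOf_edge hlen pos hi]
      have hs := h.step k i hi
      rwa [abs_of_nonneg (by linarith)] at this
    · have := main u k (i + 1) i hi hi.le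
      rw [Sym2.eq_swap, wOf_edge hlen pos hi]
      have hs := h.step k i hi
      rwa [abs_sub_comm, abs_of_nonneg (by linarith)] at this

end verify

end Pool.Agent.U892.Theta
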